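import Pool.Agent.RelX.NNA

/-!
# The number of possible advices
-/

set_option autoImplicit false

namespace Pool.Agent.RelX

open MeasureTheory
open Pool.Agent.RelM (Lang str qb)
open Pool.Agent.RelO (lev st)
open Pool.Agent.RelS (Idx Om)
open Pool.Agent.RelT (Par Hist)

namespace ADVN_

/-- The options of the stages are less than this number. -/
def K0 (Φ : Par2) : ℕ := max Φ.A.K Φ.B.K

lemma K0_ge (Φ : Par2) (j : ℕ) : (Pt Φ j).K ≤ K0 Φ := by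
  unfold Pt K0
  split_ifs
  · exact le_max_right _ _
  · exact le_max_left _ _

/-- The advice of finite tables. -/
noncomputable def F (K l M : ℕ) (p : (Fin l → Fin K) × (Fin M → Fin (M + 1))) : Adv :=
  (fun j => if h : j < l then (p.1 ⟨j, h⟩ : ℕ) else 0,
    fun t => if h : t < M then (p.2 ⟨t, h⟩ : ℕ) else 0)

/-- The probabilities are at most one. -/
lemma tadv_le (Φ : Par2) (ω : Om) (t : ℕ) : (tadv Φ ω).2 t ≤ Mg Φ (sw Φ t) := by
  show ⌊(Mg Φ (sw Φ t) : ℝ) * pa Φ (sw Φ t) (hs Φ ω (sw Φ t)) ω t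
      (best Φ (sw Φ t) (hs Φ ω (sw Φ t)) ω)⌋₊ ≤ Mg Φ (sw Φ t)
  refine Nat.floor_le_of_le ?_
  have h1 : pa Φ (sw Φ t) (hs Φ ω (sw Φ t)) ω t (best Φ (sw Φ t) (hs Φ ω (sw Φ t)) ω) ≤ 1 := by
    unfold pa
    exact measureReal_le_one
  have h2 : (0 : ℝ) ≤ Mg Φ (sw Φ t) := Nat.cast_nonneg _
  nlinarith

/-- The true advice up to a level. -/
lemma exi (Φ : Par2) {K l M : ℕ} (hK : K = K0 Φ) (hM : M = 2 ^ (2 * Nat.sqrt l)) (ω : Om) :
    ∃ p : (Fin l → Fin K) × (Fin M → Fin (M + 1)),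
      GdA Φ (F K l M p) ∧ AG Φ (F K l M p) ω l := by
  have hb : ∀ j, best Φ j (hs Φ ω j) ω < (Pt Φ j).K := fun j => best_lt _ _ _ _
  refine ⟨(fun j => ⟨best Φ j (hs Φ ω j) ω, (hb j).trans_le (by rw [hK]; exact K0_ge Φ j)⟩,
    fun t => ⟨min ((tadv Φ ω).2 t) M, by omega⟩), ?_, ?_, ?_⟩
  · intro j
    show (if h : j < l then best Φ j (hs Φ ω j) ω else 0) < _
    split_ifs
    · exact hb j
    · exact (Pt Φ j).K1
  · intro j _ hj
    have h1 := nnge Φ j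
    show (if h : j < l then best Φ j (hs Φ ω j) ω else 0) = best Φ j (hs Φ ω j) ω
    rw [dif_pos (by omega)]
  · intro j _ hj t ht
    have h1 : nn Φ j ≤ Nat.sqrt l := by
      rw [Nat.le_sqrt']
      exact hj
    have h2 := nnge Φ j
    have h3 : 2 ^ (nn Φ j + j) ≤ M := by
      rw [hM]
      exact Nat.pow_le_pow_right (by norm_num) (by omega)
    have h4 : t < M := by
      unfold Wd at ht
      rw [Finset.mem_Ico] at ht
      exact ht.2.trans_le h3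
    show (if h : t < M then min ((tadv Φ ω).2 t) M else 0) = (tadv Φ ω).2 t
    rw [dif_pos h4]
    have h5 := tadv_le Φ ω t
    rw [sw_eq ht] at h5
    have h6 : Mg Φ j = 2 ^ (nn Φ j + j) := rfl
    exact min_eq_left (by omega)

lemma bound (a b : ℕ) : ∃ N, ∀ x, N ≤ x → a * x + 2 ^ (x / 8 + b) ≤ 2 ^ (x / 4) := by
  refine ⟨8 * (5 + a + b) + 8, fun x hx => ?_⟩
  have h1 : x ≤ 2 ^ (x / 8 + 4) := by
    have h2 : x / 8 < 2 ^ (x / 8) := Nat.lt_two_pow_self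
    have h3 : 2 ^ (x / 8 + 4) = 16 * 2 ^ (x / 8) := by ring
    omega
  have h4 : a * x ≤ 2 ^ (x / 8 + 4 + a) := by
    calc a * x ≤ 2 ^ a * 2 ^ (x / 8 + 4) := Nat.mul_le_mul Nat.lt_two_pow_self.le h1
      _ = 2 ^ (x / 8 + 4 + a) := by rw [← pow_add]; congr 1; omega
  have h5 : 2 ^ (x / 8 + 4 + a) ≤ 2 ^ (x / 8 + 4 + a + b) :=
    Nat.pow_le_pow_right (by norm_num) (by omega)
  have h6 : 2 ^ (x / 8 + b) ≤ 2 ^ (x / 8 + 4 + a + b) :=
    Nat.pow_le_pow_right (by norm_num) (by omega)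
  calc a * x + 2 ^ (x / 8 + b) ≤ 2 ^ (x / 8 + 4 + a + b) + 2 ^ (x / 8 + 4 + a + b) := by omega
    _ = 2 ^ (x / 8 + 4 + a + b + 1) := by ring
    _ ≤ 2 ^ (x / 4) := Nat.pow_le_pow_right (by norm_num) (by omega)

lemma sq_bound (c x : ℕ) : Nat.sqrt (c * x) ≤ x / 32 + 8 * c + 1 := by
  have h1 : x ≤ 32 * (x / 32) + 31 := by omega
  obtain ⟨y, hy⟩ : ∃ y : ℕ, y = x / 32 + 1 := ⟨_, rfl⟩
  have h2 : x ≤ 32 * y := by omega
  have h3 : Nat.sqrt (c * x) ≤ y + 8 * c := by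
    rw [← Nat.lt_succ_iff, Nat.sqrt_lt']
    have h4 : c * x ≤ c * (32 * y) := Nat.mul_le_mul_left _ h2
    nlinarith [sq_nonneg ((y : ℤ) - 8 * c), Nat.zero_le (y * c)]
  omega

end ADVN_

open ADVN_

/-- There are few advices. -/
theorem adv_fin (Φ : Par2) {κ : ℕ} (hκ : κ % 2 = 1) : ∃ t₀, ∀ t, t₀ ≤ t → ∃ 𝒜 : Finset Adv,
    (∀ α ∈ 𝒜, GdA Φ α) ∧ 𝒜.card ≤ 2 ^ Nat.sqrt t ∧
      ∀ ω, ∃ α ∈ 𝒜, AG Φ α ω (lev κ (str t)) := by
  classical
  obtain ⟨K, hK⟩ : ∃ K : ℕ, K = K0 Φ := ⟨_, rfl⟩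
  obtain ⟨N, hN⟩ := bound (K * (κ + 2)) (4 * (8 * (κ + 2) + 1))
  refine ⟨2 ^ (N + 4), fun t ht => ?_⟩
  obtain ⟨l, hl⟩ : ∃ l : ℕ, l = lev κ (str t) := ⟨_, rfl⟩
  obtain ⟨M, hM⟩ : ∃ M : ℕ, M = 2 ^ (2 * Nat.sqrt l) := ⟨_, rfl⟩
  refine ⟨(Finset.univ.image (F K l M)).filter (GdA Φ), fun α hα => (Finset.mem_filter.1 hα).2,
    ?_, fun ω => ?_⟩
  · obtain ⟨x, hx⟩ : ∃ x : ℕ, x = Nat.log 2 (t + 1) + 2 := ⟨_, rfl⟩
    have hlx : l = (κ + 2) * x := by
      rw [hl, hx]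
      unfold lev
      rw [if_neg (by omega), Pool.Agent.RelM.strlen]
    have h1 : ((Finset.univ.image (F K l M)).filter (GdA Φ)).card ≤ K ^ l * (M + 1) ^ M := by
      refine (Finset.card_filter_le _ _).trans (Finset.card_image_le.trans ?_)
      simp
    have h2 : K ^ l ≤ 2 ^ (K * l) := by
      rw [pow_mul]
      exact Nat.pow_le_pow_left Nat.lt_two_pow_self.le l
    have h3 : (M + 1) ^ M ≤ 2 ^ (2 ^ (4 * Nat.sqrt l)) := by
      have e1 : M + 1 ≤ 2 ^ (2 * Nat.sqrt l + 1) := by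
        rw [pow_succ, ← hM]
        have : 1 ≤ M := by
          rw [hM]
          exact Nat.one_le_two_pow
        omega
      have e2 : 2 * Nat.sqrt l + 1 ≤ 2 ^ (2 * Nat.sqrt l) := Nat.lt_two_pow_self
      calc (M + 1) ^ M ≤ (2 ^ (2 * Nat.sqrt l + 1)) ^ M := Nat.pow_le_pow_left e1 M
        _ = 2 ^ ((2 * Nat.sqrt l + 1) * M) := (pow_mul _ _ _).symm
        _ ≤ 2 ^ (2 ^ (4 * Nat.sqrt l)) := by
            refine Nat.pow_le_pow_right (by norm_num) ?_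
            calc (2 * Nat.sqrt l + 1) * M ≤ 2 ^ (2 * Nat.sqrt l) * 2 ^ (2 * Nat.sqrt l) := by
                  rw [hM]
                  exact Nat.mul_le_mul_right _ e2
              _ = 2 ^ (4 * Nat.sqrt l) := by rw [← pow_add]; congr 1; omega
    have h4 : K * l + 2 ^ (4 * Nat.sqrt l) ≤ Nat.sqrt t := by
      have hxN : N ≤ x := by
        have : N + 4 ≤ Nat.log 2 (t + 1) := by
          rw [Nat.le_log_iff_pow_le (by norm_num) (by omega)]
          omega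
        omega
      have hx4 : 6 ≤ x := by
        have : N + 4 ≤ Nat.log 2 (t + 1) := by
          rw [Nat.le_log_iff_pow_le (by norm_num) (by omega)]
          omega
        omega
      have e1 := hN x hxN
      have e2 : K * (κ + 2) * x = K * l := by rw [hlx]; ring
      have e3 : 4 * Nat.sqrt l ≤ x / 8 + 4 * (8 * (κ + 2) + 1) := by
        have := sq_bound (κ + 2) x
        rw [← hlx] at this
        omega
      have e4 : 2 ^ (4 * Nat.sqrt l) ≤ 2 ^ (x / 8 + 4 * (8 * (κ + 2) + 1)) :=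
        Nat.pow_le_pow_right (by norm_num) e3
      have e5 : 2 ^ (x / 4) ≤ Nat.sqrt t := by
        rw [Nat.le_sqrt', ← pow_mul]
        have e6 : 2 ^ (x / 4 * 2) ≤ 2 ^ (x - 3) := Nat.pow_le_pow_right (by norm_num) (by omega)
        have e7 : 2 ^ (x - 2) ≤ t + 1 := by
          rw [hx, Nat.add_sub_cancel]
          exact Nat.pow_log_le_self 2 (by omega)
        have e8 : 2 ^ (x - 2) = 2 * 2 ^ (x - 3) := by
          rw [show x - 2 = x - 3 + 1 by omega]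
          ring
        have e9 : 1 ≤ 2 ^ (x - 3) := Nat.one_le_two_pow
        omega
      omega
    calc ((Finset.univ.image (F K l M)).filter (GdA Φ)).card ≤ K ^ l * (M + 1) ^ M := h1
      _ ≤ 2 ^ (K * l) * 2 ^ (2 ^ (4 * Nat.sqrt l)) := Nat.mul_le_mul h2 h3
      _ = 2 ^ (K * l + 2 ^ (4 * Nat.sqrt l)) := (pow_add _ _ _).symm
      _ ≤ 2 ^ Nat.sqrt t := Nat.pow_le_pow_right (by norm_num) h4
  · obtain ⟨p, hp1, hp2⟩ := exi Φ hK hM ω
    refine ⟨F K l M p, ?_, ?_⟩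
    · exact Finset.mem_filter.2 ⟨Finset.mem_image_of_mem _ (Finset.mem_univ p), hp1⟩
    · rw [← hl]
      exact hp2

end Pool.Agent.RelX
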