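import Pool.Agent.RelX.VIEW

/-!
# The probability of a bit of a hidden language
-/

set_option autoImplicit false

namespace Pool.Agent.RelX

open MeasureTheory Set
open scoped ENNReal
open Pool.Agent.RelM (Lang Instr Cfg step run Halts pair str pre wq sq0 sq1 Asks hq qb)
open Pool.Agent.RelO (lev levmono)
open Pool.Agent.RelS (Z Rl orcV orc Idx Om Dep mixP fd meas_of_dep ovis ocut bern)
open Pool.Agent.RelT (Par Hist md md_pos md_spec ix ix_str qf seto)

open FAIR_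

theorem fair : T_FAIR := by
  intro Φ κ t H b hκ h0 hH dH
  obtain ⟨O, hOe⟩ : ∃ O : Om → ℕ, ∀ ω, O ω = oc Φ (hf Φ ω).1 κ (lev κ (str t)) :=
    ⟨_, fun _ => rfl⟩
  have hrt : ∀ ω, rt Φ κ t ω = Real.exp (-it Φ κ (str t) (O ω)) := by
    intro ω
    unfold rt
    rw [oc_view h0 le_rfl, hOe]
  simp only [hrt]
  refine fair_gen Φ κ (str t) b (N := KK Φ) hH ?_ ?_ ?_ ?_ ?_
  · refine meas_of_dep (visfin Φ κ t) fun ω ω' h => ?_
    rw [hOe, hOe, ← oc_view h0 le_rfl, ← oc_view h0 le_rfl, hs_vis hκ h0 h]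
  · intro ω
    rw [hOe]
    exact (ocspec Φ _ κ _ (str t) (gd_hf Φ ω)).1
  · intro ω ω' h
    rw [hOe, hOe]
    exact oc_dep Φ κ (str t) ω ω' h
  · intro ω ω' h
    exact dH ω ω' fun a ha => h a (hidden_notMem (not_ss Φ κ t) ha)
  · intro ω
    refine Rl_iff _ ω κ (str t) (O ω) b fun y => ?_
    rw [hOe]
    rfl

end Pool.Agent.RelX
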