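import Pool.Agent.RelX.Targets2
import Pool.Agent.RelX.VAL
import Pool.Agent.RelT.CROSS
import Pool.Agent.RelT.NPR
import Pool.Agent.RelO.MAIN

/-!
# Free even families: the hidden languages have no null cover
-/

set_option autoImplicit false

namespace Pool.Agent.RelX

open MeasureTheory Set
open scoped ENNReal
open Pool.Agent.RelM (Lang Instr Cfg step run Halts triple outVal Approx str pre IsDensity
  IsNullCover NP E2 Null2)
open Pool.Agent.RelO (lev proc)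
open Pool.Agent.RelS (Z Rl Idx Om Dep meas_of_dep)

namespace NULLD_

open VAL_

/-! ### Densities -/

theorem dens_step {d : List Bool → ℝ} (hd : IsDensity d) (w : List Bool) (b : Bool) :
    d (w ++ [b]) ≤ 2 * d w := by
  have h1 := hd.avg w
  have h2 := hd.nonneg (w ++ [false])
  have h3 := hd.nonneg (w ++ [true])
  cases b <;> linarith

theorem dens_pre {d : List Bool → ℝ} (hd : IsDensity d) (A : Lang) (n : ℕ) :
    d (pre A n) ≤ 2 ^ n * d [] := by
  induction n with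
  | zero => simp [pre]
  | succ n ih =>
    rw [pre_succ]
    have := dens_step hd (pre A n) (A (str n))
    rw [pow_succ]
    linarith

/-! ### The processes -/

/-- The values at time `i + 1`. -/
noncomputable def XX (Φ : Par2) (κ : ℕ) (Pr : List Instr) (T : ℕ → ℕ) (j i : ℕ) (b : Bool)
    (ω : Om) : ℝ :=
  val Φ κ (j + i) Pr T (inp Φ κ (2 * j) (j + i + 1 + 2 * j + 3) (j + i) [b] ω) ω

/-- The value at time `0`. -/
noncomputable def YY (Φ : Par2) (κ : ℕ) (Pr : List Instr) (T : ℕ → ℕ) (j : ℕ) (ω : Om) : ℝ :=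
  val Φ κ j Pr T (inp Φ κ (2 * j) (j + 2 * j + 3) j [] ω) ω

/-- The bits. -/
noncomputable def bb (Φ : Par2) (κ j i : ℕ) (ω : Om) : Bool := RR Φ κ ω (str (j + i))

/-- The errors. -/
noncomputable def ee (j i : ℕ) : ℝ := 2 * (1 / 2 : ℝ) ^ (j + i + 2 * j + 3)

theorem ee_sum (j : ℕ) : Summable (ee j) ∧ ∑' i, ee j i ≤ (1 / 2 : ℝ) ^ j := by
  have h1 : ∀ i, ee j i = (2 * (1 / 2 : ℝ) ^ (3 * j + 3)) * (1 / 2 : ℝ) ^ i := by
    intro i
    unfold ee
    rw [mul_assoc, ← pow_add]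
    congr 2
    ring
  have h2 : HasSum (ee j) ((2 * (1 / 2 : ℝ) ^ (3 * j + 3)) * 2) := by
    have := hasSum_geometric_two.mul_left (2 * (1 / 2 : ℝ) ^ (3 * j + 3))
    simpa only [← h1] using this
  refine ⟨h2.summable, ?_⟩
  rw [h2.tsum_eq]
  have h3 : (1 / 2 : ℝ) ^ (3 * j + 3) = (1 / 2 : ℝ) ^ j * (1 / 2) ^ (2 * j) * (1 / 8) := by
    rw [show 3 * j + 3 = j + 2 * j + 3 by ring, pow_add, pow_add]
    norm_num
  have h4 : (1 / 2 : ℝ) ^ (2 * j) ≤ 1 := pow_le_one₀ (by norm_num) (by norm_num)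
  have h5 : 0 ≤ (1 / 2 : ℝ) ^ j := by positivity
  have h6 : 0 ≤ (1 / 2 : ℝ) ^ (2 * j) := by positivity
  rw [h3]
  nlinarith [mul_le_mul_of_nonneg_left h4 h5]

/-- The pairs of the even families are free. -/
theorem it_free {Φ : Par2} (hB : Fr Φ.B) {κ : ℕ} (hκ : κ % 2 = 0) {o : ℕ → ℕ} (ho : Gd Φ o)
    (m : ℕ) (x : List Bool) : it Φ κ x (oc Φ o κ m) = Real.log 2 := by
  unfold oc
  split_ifs with h1 h2 h3 h3
  · unfold it
    rw [if_pos rfl]
  · omega
  · have h4 := ho (jj Φ m - 1)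
    rw [show jj Φ m - 1 + 1 = jj Φ m by omega] at h4
    unfold Pt at h4
    rw [if_pos h2] at h4
    unfold it
    rw [if_neg (by omega), if_neg (by omega), show (2 * o (jj Φ m) + 2 - 2) / 2 = o (jj Φ m) by
      omega]
    exact hB _ _ _ _ h4
  · omega
  · unfold it
    rw [if_pos rfl]

theorem rt_free {Φ : Par2} (hB : Fr Φ.B) {κ : ℕ} (hκ : κ % 2 = 0) (t : ℕ) (ω : Om) :
    rt Φ κ t ω = 1 / 2 := by
  unfold rt
  rw [it_free hB hκ (gd_hs Φ ω _), Real.exp_neg, Real.exp_log (by norm_num)]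
  norm_num

/-- The event that a gambler wins. -/
def Win (Φ : Par2) (κ : ℕ) (Pr : List Instr) (T : ℕ → ℕ) (j : ℕ) : Set Om :=
  {ω | YY Φ κ Pr T j ω ≤ 2 * (1 / 2 : ℝ) ^ j ∧
    (∀ i, 1 / 2 * XX Φ κ Pr T j i false ω + (1 - 1 / 2) * XX Φ κ Pr T j i true ω ≤
      proc (bb Φ κ j) (XX Φ κ Pr T j) (YY Φ κ Pr T j) i ω + ee j i) ∧
    ∃ i, 1 / 2 ≤ proc (bb Φ κ j) (XX Φ κ Pr T j) (YY Φ κ Pr T j) i ω}

theorem cross_bound (hF : T_FAIR) {Φ : Par2} (hA : Fr Φ.B) {κ : ℕ} (hκ : κ % 2 = 0)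
    (Pr : List Instr) (T : ℕ → ℕ) (j : ℕ) (h0 : ∀ t, j ≤ t → nn Φ 0 ≤ lev κ (str t)) :
    coin Φ (Win Φ κ Pr T j) ≤ ENNReal.ofReal (6 * (1 / 2 : ℝ) ^ j) := by
  obtain ⟨hs1, hs2⟩ := ee_sum j
  have hXd : ∀ i b, Dep (Vis Φ κ (j + i)) (XX Φ κ Pr T j i b) := fun i b =>
    val_dep Φ hκ (j + i) (h0 _ (by omega)) Pr T _ _ _
  have hYd : Dep (Vis Φ κ j) (YY Φ κ Pr T j) := val_dep Φ hκ j (h0 _ le_rfl) Pr T _ _ _
  have hfin : ∀ t, (Vis Φ κ t).Finite := visfin Φ κ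
  have hc := Pool.Agent.RelT.cross (coin Φ) (bb Φ κ j) (XX Φ κ Pr T j) (YY Φ κ Pr T j)
    (fun _ _ => 1 / 2) (fun t ω ω' => ∀ a ∈ Vis Φ κ (j + t), ω a = ω' a) (ee j)
    (2 * (1 / 2 : ℝ) ^ j)
    (fun t => meas_of_dep (hfin (j + t + 1)) (bit_dep Φ hκ (Nat.lt_succ_self (j + t))))
    (fun t i => meas_of_dep (hfin _) (hXd t i)) (meas_of_dep (hfin _) hYd)
    (fun _ => measurable_const)
    (fun t ω ω' h => hYd ω ω' fun a ha => h a (vis_mono Φ κ (by omega) ha))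
    (fun s t hst ω ω' h => bit_dep Φ hκ (by omega : j + s < j + t) ω ω' h)
    (fun s t hst i ω ω' h => hXd s i ω ω' fun a ha => h a (vis_mono Φ κ (by omega) ha))
    (fun _ _ _ _ _ _ => rfl) (fun _ _ => by norm_num) (fun _ _ => by norm_num)
    ?_ (fun t i ω => abs_nonneg _) (fun ω => abs_nonneg _)
    (fun t => by unfold ee; positivity) hs1 (by positivity)
  · refine hc.trans ?_
    apply ENNReal.ofReal_le_ofReal
    linarith
  · intro t H hH hHd
    have h1 := hF Φ κ (j + t) H false hκ (h0 _ (by omega)) hH hHd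
    have h2 := hF Φ κ (j + t) H true hκ (h0 _ (by omega)) hH hHd
    simp only [rt_free hA hκ, if_true] at h1
    simp only [rt_free hA hκ, Bool.true_eq_false, if_false] at h2
    exact ⟨h1.le, h2.le⟩

theorem incl (Φ : Par2) (κ : ℕ) (Pr : List Instr) (T : ℕ → ℕ) (j : ℕ) (hj : 1 ≤ j) :
    {ω | ∃ d : ℕ → List Bool → ℝ, IsNullCover d {Rl (zo Φ ω) κ} ∧ Approx (oo Φ ω) Pr T d} ⊆
    Win Φ κ Pr T j ∪
    (Hit Φ κ Pr T (2 * j) (j + 2 * j + 3) j [] ∪
      ((⋃ i, Hit Φ κ Pr T (2 * j) (j + i + 1 + 2 * j + 3) (j + i) [false]) ∪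
        ⋃ i, Hit Φ κ Pr T (2 * j) (j + i + 1 + 2 * j + 3) (j + i) [true])) := by
  rintro ω ⟨d, hN, hA⟩
  by_contra hcon
  rw [Set.mem_union, Set.mem_union, Set.mem_union, Set.mem_iUnion, Set.mem_iUnion] at hcon
  push Not at hcon
  obtain ⟨hcr, hY, hF, hT⟩ := hcon
  apply hcr
  have hd : ∀ k, IsDensity (d k) := fun k => (hN k).1
  have hdn0 : ∀ k w, 0 ≤ d k w := fun k w => (hd k).nonneg w
  obtain ⟨R, hR⟩ : ∃ R : Lang, R = RR Φ κ ω := ⟨_, rfl⟩
  have hYc : |YY Φ κ Pr T j ω - d (2 * j) (pre R j)| ≤ (1 / 2 : ℝ) ^ (j + 2 * j + 3) := by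
    have := val_close hdn0 hA (2 * j) (j + 2 * j + 3) j [] hY
    rw [List.append_nil, ← hR] at this
    exact this
  have hX : ∀ i b, |XX Φ κ Pr T j i b ω - d (2 * j) (pre R (j + i) ++ [b])|
      ≤ (1 / 2 : ℝ) ^ (j + i + 1 + 2 * j + 3) := by
    intro i b
    rw [hR]
    cases b
    · exact val_close hdn0 hA (2 * j) (j + i + 1 + 2 * j + 3) (j + i) [false] (hF i)
    · exact val_close hdn0 hA (2 * j) (j + i + 1 + 2 * j + 3) (j + i) [true] (hT i)
  have hproc : ∀ i, |proc (bb Φ κ j) (XX Φ κ Pr T j) (YY Φ κ Pr T j) i ω -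
      d (2 * j) (pre R (j + i))| ≤ (1 / 2 : ℝ) ^ (j + i + 2 * j + 3) := by
    intro i
    cases i with
    | zero => exact hYc
    | succ i =>
      have h1 := hX i (bb Φ κ j i ω)
      have h2 : pre R (j + (i + 1)) = pre R (j + i) ++ [bb Φ κ j i ω] := by
        rw [← add_assoc, pre_succ, hR]
        rfl
      rw [h2]
      exact h1
  have hd0 : d (2 * j) [] ≤ (1 / 2 : ℝ) ^ (2 * j) := (hN (2 * j)).2.1
  have hdn : ∀ n ≤ j, d (2 * j) (pre R n) ≤ (1 / 2 : ℝ) ^ j := by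
    intro n hn
    calc d (2 * j) (pre R n) ≤ 2 ^ n * d (2 * j) [] := dens_pre (hd _) R n
      _ ≤ 2 ^ n * (1 / 2 : ℝ) ^ (2 * j) := by gcongr
      _ ≤ 2 ^ j * (1 / 2 : ℝ) ^ (2 * j) := by
          gcongr
          norm_num
      _ = (1 / 2 : ℝ) ^ j := by
          rw [two_mul, pow_add, ← mul_assoc, ← mul_pow]
          norm_num
  refine ⟨?_, ?_, ?_⟩
  · have h1 := (abs_le.mp hYc).2
    have h2 := hdn j le_rfl
    have h3 : (1 / 2 : ℝ) ^ (j + 2 * j + 3) ≤ (1 / 2 : ℝ) ^ j :=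
      pow_le_pow_of_le_one (by norm_num) (by norm_num) (by omega)
    linarith
  · intro i
    have h1 := (abs_le.mp (hX i false)).2
    have h2 := (abs_le.mp (hX i true)).2
    have h3 := (abs_le.mp (hproc i)).1
    have h4 := (hd (2 * j)).avg (pre R (j + i))
    have h5 : (1 / 2 : ℝ) ^ (j + i + 1 + 2 * j + 3) ≤ (1 / 2 : ℝ) ^ (j + i + 2 * j + 3) :=
      pow_le_pow_of_le_one (by norm_num) (by norm_num) (by omega)
    unfold ee
    linarith
  · obtain ⟨n, hn⟩ := (hN (2 * j)).2.2 R (by rw [hR]; rfl)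
    have hlt : j < n := by
      by_contra hle
      have h1 := hdn n (by omega)
      have h2 : (1 / 2 : ℝ) ^ j ≤ (1 / 2 : ℝ) ^ 1 :=
        pow_le_pow_of_le_one (by norm_num) (by norm_num) hj
      norm_num at h2
      norm_num at h1
      linarith
    obtain ⟨i, rfl⟩ := Nat.exists_eq_add_of_lt hlt
    refine ⟨i + 1, ?_⟩
    have h3 := (abs_le.mp (hproc (i + 1))).1
    rw [show j + (i + 1) = j + i + 1 by omega] at h3
    have h4 : (1 / 2 : ℝ) ^ (j + i + 1 + 2 * j + 3) ≤ (1 / 2 : ℝ) ^ 1 :=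
      pow_le_pow_of_le_one (by norm_num) (by norm_num) (by omega)
    rw [pow_one] at h4
    linarith

end NULLD_

open VAL_ NULLD_ in
/-- Almost surely, no machine that is fast compared with the keys of the even family `κ` has a
null cover of the hidden language, if the even families are free. -/
theorem nonnulld (hHIT : T_HIT) (hFAIR : T_FAIR) : T_NONNULLD := by
  intro Φ κ Pr T hA hκ hfast
  rw [ae_iff]
  simp only [not_not]
  obtain ⟨t₀, ht₀⟩ := hfast 8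
  obtain ⟨f, hf⟩ : ∃ f : ℕ → ℝ≥0∞, ∀ t, f t = ENNReal.ofReal (1 / ((t : ℝ) + 1) ^ 2) :=
    ⟨_, fun _ => rfl⟩
  have hfs : ∑' t, f t ≠ ∞ := by
    simp only [hf]
    exact hitsum
  have hbound : ∀ j, max 1 (max (2 ^ nn Φ 0) t₀) ≤ j →
      coin Φ {ω | ∃ d : ℕ → List Bool → ℝ, IsNullCover d {Rl (zo Φ ω) κ} ∧
        Approx (oo Φ ω) Pr T d} ≤
      ENNReal.ofReal (6 * (1 / 2 : ℝ) ^ j) + (f j + (∑' i, f (i + j) + ∑' i, f (i + j))) := by
    intro j hj
    have hj1 : 1 ≤ j := le_trans (le_max_left _ _) hj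
    have hj2 : 2 ^ nn Φ 0 ≤ j := le_trans (le_max_left _ _) (le_trans (le_max_right _ _) hj)
    have hj3 : t₀ ≤ j := le_trans (le_max_right _ _) (le_trans (le_max_right _ _) hj)
    have h0 : ∀ t, j ≤ t → nn Φ 0 ≤ lev κ (str t) := fun t ht => start Φ κ t (by omega)
    refine (measure_mono (incl Φ κ Pr T j hj1)).trans ?_
    refine (measure_union_le _ _).trans (add_le_add (cross_bound hFAIR hA hκ Pr T j h0) ?_)
    refine (measure_union_le _ _).trans (add_le_add ?_ ?_)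
    · rw [hf]
      exact hit_bound hHIT Φ hκ Pr T 8 _ _ j [] (h0 _ le_rfl) (ht₀ j hj3) (by simp; omega)
    · refine (measure_union_le _ _).trans (add_le_add ?_ ?_)
      · refine (measure_iUnion_le _).trans (ENNReal.tsum_le_tsum fun i => ?_)
        rw [add_comm i j, hf]
        exact hit_bound hHIT Φ hκ Pr T 8 _ _ (j + i) [false] (h0 _ (by omega))
          (ht₀ _ (by omega)) (by simp; omega)
      · refine (measure_iUnion_le _).trans (ENNReal.tsum_le_tsum fun i => ?_)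
        rw [add_comm i j, hf]
        exact hit_bound hHIT Φ hκ Pr T 8 _ _ (j + i) [true] (h0 _ (by omega))
          (ht₀ _ (by omega)) (by simp; omega)
  have hlim : Filter.Tendsto (fun j : ℕ =>
      ENNReal.ofReal (6 * (1 / 2 : ℝ) ^ j) + (f j + (∑' i, f (i + j) + ∑' i, f (i + j))))
      Filter.atTop (nhds 0) := by
    have h1 : Filter.Tendsto (fun j : ℕ => ENNReal.ofReal (6 * (1 / 2 : ℝ) ^ j)) Filter.atTop
        (nhds 0) := by
      have h2 : Filter.Tendsto (fun j : ℕ => 6 * (1 / 2 : ℝ) ^ j) Filter.atTop (nhds (6 * 0)) :=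
        (tendsto_pow_atTop_nhds_zero_of_lt_one (by norm_num) (by norm_num)).const_mul 6
      have h3 := ENNReal.tendsto_ofReal h2
      simpa using h3
    have h4 : Filter.Tendsto f Filter.atTop (nhds 0) :=
      ENNReal.tendsto_atTop_zero_of_tsum_ne_top hfs
    have h5 := ENNReal.tendsto_sum_nat_add f hfs
    simpa using h1.add (h4.add (h5.add h5))
  refine le_antisymm (ge_of_tendsto hlim ?_) zero_le
  filter_upwards [Filter.eventually_ge_atTop (max 1 (max (2 ^ nn Φ 0) t₀))] with j hj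
  exact hbound j hj

/-- The problems of `NP` that can be decided in exponential time with a quasi-linear exponent are
not null, if the even families are free. -/
theorem meas2_of (hND : T_NONNULLD) (hF2 : T_FAST2) : T_MEAS2 := by
  intro Φ hB
  have a3 : ∀ᵐ ω ∂(coin Φ), ∀ (κ c : ℕ) (Pr : List Instr), κ % 2 = 0 →
      Fast κ (fun l => 2 ^ ((Nat.log 2 l + 2) ^ c)) →
      ¬ ∃ d : ℕ → List Bool → ℝ, IsNullCover d {Rl (zo Φ ω) κ} ∧
        Approx (oo Φ ω) Pr (fun l => 2 ^ ((Nat.log 2 l + 2) ^ c)) d := by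
    refine ae_all_iff.2 fun κ => ae_all_iff.2 fun c => ae_all_iff.2 fun Pr => ?_
    by_cases h1 : κ % 2 = 0
    · by_cases h2 : Fast κ (fun l => 2 ^ ((Nat.log 2 l + 2) ^ c))
      · filter_upwards [hND Φ κ Pr _ hB h1 h2] with ω hω _ _
        exact hω
      · exact Filter.Eventually.of_forall fun ω _ h => (h2 h).elim
    · exact Filter.Eventually.of_forall fun ω h => (h1 h).elim
  filter_upwards [a3] with ω h3
  rintro ⟨d, hd1, Pr, c, hA⟩
  obtain ⟨κ₀, hκ₀⟩ := hF2 c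
  obtain ⟨κ, h5, h6⟩ : ∃ κ, κ₀ ≤ κ ∧ κ % 2 = 0 := ⟨2 * κ₀, by omega, by omega⟩
  refine h3 κ c Pr h6 (hκ₀ κ h5 h6) ⟨d, fun k => ?_, hA⟩
  refine ⟨(hd1 k).1, (hd1 k).2.1, ?_⟩
  rintro A rfl
  exact (hd1 k).2.2 _ ⟨Pool.Agent.RelT.npr _ _ _, Pool.Agent.RelT.e2r _ _ _ h6⟩

theorem meas2 (hHIT : T_HIT) (hFAIR : T_FAIR) (hF2 : T_FAST2) : T_MEAS2 :=
  meas2_of (nonnulld hHIT hFAIR) hF2

end Pool.Agent.RelX
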