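import Pool.Agent.RelX.Targets2
import Pool.Agent.RelT.PAR

/-!
# Constant parameters and free parameters
-/

set_option autoImplicit false

namespace Pool.Agent.RelX

namespace PARC_

/-- The supergale numbers have room. -/
theorem gap (a : ℝ) (k : ℕ) : ∃ v₀ : ℕ, ∀ v : ℕ, v₀ ≤ v →
    a * Real.log 2 + 5 / ((v : ℝ) + 1) ≤ (a + 1 / ((k : ℝ) + 1)) * Real.log 2 := by
  have hl : 0 < Real.log 2 := Real.log_pos (by norm_num)
  have hk : (0 : ℝ) < (k : ℝ) + 1 := by positivity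
  refine ⟨⌈5 * ((k : ℝ) + 1) / Real.log 2⌉₊, fun v hv => ?_⟩
  have h1 : 5 * ((k : ℝ) + 1) / Real.log 2 ≤ v := Nat.ceil_le.mp hv
  have hv0 : (0 : ℝ) < (v : ℝ) + 1 := by positivity
  rw [div_le_iff₀ hl] at h1
  have h2 : 5 / ((v : ℝ) + 1) ≤ Real.log 2 / ((k : ℝ) + 1) := by
    rw [div_le_div_iff₀ hv0 hk]
    nlinarith
  have h3 : (a + 1 / ((k : ℝ) + 1)) * Real.log 2 = a * Real.log 2 + Real.log 2 / ((k : ℝ) + 1) := by
    ring
  rw [h3]
  linarith

theorem s0 (a : ℝ) (h : 0 ≤ a) (k : ℕ) : 0 ≤ a + 1 / ((k : ℝ) + 1) := by positivity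

theorem s2 (a : ℝ) (h : a ≤ 1) (k : ℕ) : a + 1 / ((k : ℝ) + 1) ≤ 2 := by
  have hk : (0 : ℝ) < (k : ℝ) + 1 := by positivity
  have h1 : 1 / ((k : ℝ) + 1) ≤ 1 := by
    rw [div_le_one hk]
    have : (0 : ℝ) ≤ k := Nat.cast_nonneg k
    linarith
  linarith

end PARC_

/-- Constant parameters. -/
theorem parc : T_PARC := by
  intro a h0 h1
  obtain ⟨Φ, hΦ⟩ := Pool.Agent.RelT.par a h0 h1
  subst hΦ
  refine ⟨{ a := fun _ => Φ.a, ai := Φ.a, s := fun k => Φ.a + 1 / ((k : ℝ) + 1), K := Φ.K,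
            lam := fun _ i => Φ.lam i, dm := Φ.dm, mul := Φ.mul, B := Φ.B, pv := Φ.pv,
            a0 := fun _ => h0, a1 := fun _ => h1, s0 := PARC_.s0 _ h0, s2 := PARC_.s2 _ h1,
            K1 := Φ.K1, lam0 := fun _ i => Φ.lam0 i, dm1 := Φ.dm1, mul0 := Φ.mul0,
            bd := fun _ i κ c hi => Φ.bd i κ c hi, pv0 := Φ.pv0, pv1 := Φ.pv1,
            cov := fun _ D inst e A => Φ.cov D inst e A,
            hid := fun κ => ⟨0, fun _ _ i hi => Φ.hid κ i hi⟩,
            gap := fun k => PARC_.gap _ k }, rfl, fun _ => rfl⟩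

/-- Free parameters. -/
theorem parf : T_PARF := by
  have hl : 0 < Real.log 2 := Real.log_pos (by norm_num)
  refine ⟨{ a := fun _ => 1, ai := 1, s := fun k => 1 + 1 / ((k : ℝ) + 1), K := 1,
            lam := fun _ _ => Real.log 2, dm := fun _ => 1, mul := fun _ _ => 1, B := 1,
            pv := fun _ => 1, a0 := fun _ => zero_le_one, a1 := fun _ => le_rfl,
            s0 := PARC_.s0 _ zero_le_one, s2 := PARC_.s2 _ le_rfl, K1 := le_rfl,
            lam0 := fun _ _ => hl.le, dm1 := fun _ => le_rfl, mul0 := fun _ _ => zero_le_one,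
            bd := ?_, pv0 := fun _ => zero_le_one, pv1 := by simp, cov := ?_, hid := ?_,
            gap := fun k => PARC_.gap _ k }, rfl, ?_, fun _ => rfl⟩
  · intro v i κ c hi
    rw [mul_one]
    have : Real.log 2 < 1 := by
      have := Real.log_two_lt_d9
      linarith
    push_cast
    exact this.le
  · intro v D inst e A he hA
    rw [Finset.sum_range_one, one_mul, one_mul]
    exact Real.binEntropy_le_log_two
  · intro κ
    refine ⟨0, fun v _ i hi => ?_⟩
    rw [Finset.sum_range_one, mul_one, Pool.Agent.RelS.gf_log_two]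
    have hk : (0 : ℝ) < 1 / ((κ : ℝ) + 1) := by positivity
    push_cast
    linarith
  · intro v κ c i hi
    exact mul_one _

end Pool.Agent.RelX
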