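import Pool.Agent.RelX.Targets2
import Pool.Agent.RelV.MAIN
import Pool.Agent.RelV.MHIT
import Pool.Agent.RelV.NONNULLD
import Pool.Agent.RelV.FAIR
import Pool.Agent.RelV.FAST
import Pool.Agent.RelV.VIEW
import Pool.Agent.RelV.DENT
import Pool.Agent.RelT.NPR

/-!
# An oracle relative to which neither measure is zero
-/

set_option autoImplicit false

namespace Pool.Agent.RelXP

open MeasureTheory Set
open scoped ENNReal
open Pool.Agent.RelM (Lang Instr Cfg step run Halts triple outVal Approx str pre IsDensity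
  IsNullCover NP E1 E2 Null1 Null2)
open Pool.Agent.RelO (lev proc GaleNull1 GaleNull2)
open Pool.Agent.RelS (Z Rl Idx Om Dep meas_of_dep)
open Pool.Agent.RelT (Par npr e1r e2r)
open Pool.Agent.RelV
open Pool.Agent.RelV.VAL_ Pool.Agent.RelV.NULLD_

theorem cross_boundf (hF : T_FAIR) {Φ : Par2} {κ : ℕ} (hrt : ∀ t ω, rt Φ κ t ω = 1 / 2)
    (Pr : List Instr) (T : ℕ → ℕ) (j : ℕ) (h0 : ∀ t, j ≤ t → nn Φ 0 ≤ lev κ (str t)) :
    coin Φ (Win Φ κ Pr T j) ≤ ENNReal.ofReal (6 * (1 / 2 : ℝ) ^ j) := by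
  obtain ⟨hs1, hs2⟩ := ee_sum j
  have hXd : ∀ i b, Dep (Vis Φ κ (j + i)) (XX Φ κ Pr T j i b) := fun i b =>
    val_dep Φ κ (j + i) (h0 _ (by omega)) Pr T _ _ _
  have hYd : Dep (Vis Φ κ j) (YY Φ κ Pr T j) := val_dep Φ κ j (h0 _ le_rfl) Pr T _ _ _
  have hfin : ∀ t, (Vis Φ κ t).Finite := visfin Φ κ
  have hc := Pool.Agent.RelT.cross (coin Φ) (bb Φ κ j) (XX Φ κ Pr T j) (YY Φ κ Pr T j)
    (fun _ _ => 1 / 2) (fun t ω ω' => ∀ a ∈ Vis Φ κ (j + t), ω a = ω' a) (ee j)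
    (2 * (1 / 2 : ℝ) ^ j)
    (fun t => meas_of_dep (hfin (j + t + 1)) (bit_dep Φ κ (Nat.lt_succ_self (j + t))))
    (fun t i => meas_of_dep (hfin _) (hXd t i)) (meas_of_dep (hfin _) hYd)
    (fun _ => measurable_const)
    (fun t ω ω' h => hYd ω ω' fun a ha => h a (vis_mono Φ κ (by omega) ha))
    (fun s t hst ω ω' h => bit_dep Φ κ (by omega : j + s < j + t) ω ω' h)
    (fun s t hst i ω ω' h => hXd s i ω ω' fun a ha => h a (vis_mono Φ κ (by omega) ha))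
    (fun _ _ _ _ _ _ => rfl) (fun _ _ => by norm_num) (fun _ _ => by norm_num)
    ?_ (fun t i ω => abs_nonneg _) (fun ω => abs_nonneg _)
    (fun t => by unfold ee; positivity) hs1 (by positivity)
  · refine hc.trans ?_
    apply ENNReal.ofReal_le_ofReal
    linarith
  · intro t H hH hHd
    have h1 := hF Φ κ (j + t) H false (h0 _ (by omega)) hH hHd
    have h2 := hF Φ κ (j + t) H true (h0 _ (by omega)) hH hHd
    simp only [hrt, if_true] at h1
    simp only [hrt, Bool.true_eq_false, if_false] at h2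
    exact ⟨h1.le, h2.le⟩

/-- If all hidden bits of the family `κ` are fair, the hidden language has no null cover. -/
theorem nonnullf (hHIT : T_HIT) (hFAIR : T_FAIR) (Φ : Par2) (κ : ℕ) (Pr : List Instr) (T : ℕ → ℕ)
    (hrt : ∀ t ω, rt Φ κ t ω = 1 / 2) (hfast : Fast κ T) :
    ∀ᵐ ω ∂(coin Φ), ¬ ∃ d : ℕ → List Bool → ℝ,
      IsNullCover d {Rl (zo Φ ω) κ} ∧ Approx (oo Φ ω) Pr T d := by
  rw [ae_iff]
  simp only [not_not]
  obtain ⟨t₀, ht₀⟩ := hfast 8
  obtain ⟨f, hf⟩ : ∃ f : ℕ → ℝ≥0∞, ∀ t, f t = ENNReal.ofReal (1 / ((t : ℝ) + 1) ^ 2) :=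
    ⟨_, fun _ => rfl⟩
  have hfs : ∑' t, f t ≠ ∞ := by
    simp only [hf]
    exact hitsum
  have hbound : ∀ j, max 1 (max (2 ^ nn Φ 0) t₀) ≤ j →
      coin Φ {ω | ∃ d : ℕ → List Bool → ℝ, IsNullCover d {Rl (zo Φ ω) κ} ∧
        Approx (oo Φ ω) Pr T d} ≤
      ENNReal.ofReal (6 * (1 / 2 : ℝ) ^ j) + (f j + (∑' i, f (i + j) + ∑' i, f (i + j))) := by
    intro j hj
    have hj1 : 1 ≤ j := le_trans (le_max_left _ _) hj
    have hj2 : 2 ^ nn Φ 0 ≤ j := le_trans (le_max_left _ _) (le_trans (le_max_right _ _) hj)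
    have hj3 : t₀ ≤ j := le_trans (le_max_right _ _) (le_trans (le_max_right _ _) hj)
    have h0 : ∀ t, j ≤ t → nn Φ 0 ≤ lev κ (str t) := fun t ht => start Φ κ t (by omega)
    refine (measure_mono (incl Φ κ Pr T j hj1)).trans ?_
    refine (measure_union_le _ _).trans (add_le_add (cross_boundf hFAIR hrt Pr T j h0) ?_)
    refine (measure_union_le _ _).trans (add_le_add ?_ ?_)
    · rw [hf]
      exact hit_bound hHIT Φ κ Pr T 8 _ _ j [] (h0 _ le_rfl) (ht₀ j hj3) (by simp; omega)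
    · refine (measure_union_le _ _).trans (add_le_add ?_ ?_)
      · refine (measure_iUnion_le _).trans (ENNReal.tsum_le_tsum fun i => ?_)
        rw [add_comm i j, hf]
        exact hit_bound hHIT Φ κ Pr T 8 _ _ (j + i) [false] (h0 _ (by omega))
          (ht₀ _ (by omega)) (by simp; omega)
      · refine (measure_iUnion_le _).trans (ENNReal.tsum_le_tsum fun i => ?_)
        rw [add_comm i j, hf]
        exact hit_bound hHIT Φ κ Pr T 8 _ _ (j + i) [true] (h0 _ (by omega))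
          (ht₀ _ (by omega)) (by simp; omega)
  have hlim : Filter.Tendsto (fun j : ℕ =>
      ENNReal.ofReal (6 * (1 / 2 : ℝ) ^ j) + (f j + (∑' i, f (i + j) + ∑' i, f (i + j))))
      Filter.atTop (nhds 0) := by
    have h1 : Filter.Tendsto (fun j : ℕ => ENNReal.ofReal (6 * (1 / 2 : ℝ) ^ j)) Filter.atTop
        (nhds 0) := by
      have h2 : Filter.Tendsto (fun j : ℕ => 6 * (1 / 2 : ℝ) ^ j) Filter.atTop (nhds (6 * 0)) :=
        (tendsto_pow_atTop_nhds_zero_of_lt_one (by norm_num) (by norm_num)).const_mul 6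
      have h3 := ENNReal.tendsto_ofReal h2
      simpa using h3
    have h4 : Filter.Tendsto f Filter.atTop (nhds 0) :=
      ENNReal.tendsto_atTop_zero_of_tsum_ne_top hfs
    have h5 := ENNReal.tendsto_sum_nat_add f hfs
    simpa using h1.add (h4.add (h5.add h5))
  refine le_antisymm (ge_of_tendsto hlim ?_) zero_le
  filter_upwards [Filter.eventually_ge_atTop (max 1 (max (2 ^ nn Φ 0) t₀))] with j hj
  exact hbound j hj

/-- Free parameters. -/
noncomputable def fr : Par where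
  a := 1
  K := 1
  lam := fun _ => Real.log 2
  dm := fun _ => 1
  mul := fun _ _ => 1
  B := 1
  pv := fun _ => 1
  a0 := zero_le_one
  a1 := le_rfl
  K1 := le_rfl
  lam0 := fun _ => (Real.log_pos (by norm_num)).le
  dm1 := fun _ => le_rfl
  mul0 := fun _ _ => zero_le_one
  bd := fun _ _ _ _ => by
    have := Real.log_two_lt_d9
    push_cast
    linarith
  pv0 := fun _ => zero_le_one
  pv1 := by simp
  cov := fun _ _ _ _ _ _ => by
    rw [Finset.sum_range_one, one_mul, one_mul]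
    exact Real.binEntropy_le_log_two
  hid := fun κ i _ => by
    rw [Finset.sum_range_one, mul_one, Pool.Agent.RelS.gf_log_two]
    have : 0 ≤ 1 / ((κ : ℝ) + 1) := by positivity
    push_cast
    linarith

/-- The parameters. -/
noncomputable def Φ0 : Par2 := ⟨fr, fr, le_rfl, true⟩

theorem it_free (κ : ℕ) (x : List Bool) (i : ℕ) : it Φ0 κ x i = Real.log 2 := by
  unfold it
  split_ifs
  · rfl
  · show Real.log 2 * 1 = _
    rw [mul_one]
  · show Real.log 2 * 1 = _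
    rw [mul_one]

theorem rt_free (κ t : ℕ) (ω : Om) : rt Φ0 κ t ω = 1 / 2 := by
  unfold rt
  rw [it_free, Real.exp_neg, Real.exp_log (by norm_num)]
  norm_num

theorem pp : Pool.Agent.RelX.T_PP := by
  have hH : T_HIT := hit bloc
  have a1 : ∀ᵐ ω ∂(coin Φ0), ∀ (κ c : ℕ) (Pr : List Instr), Fast κ (fun l => (l + 2) ^ c) →
      ¬ ∃ d : ℕ → List Bool → ℝ, IsNullCover d {Rl (zo Φ0 ω) κ} ∧
        Approx (oo Φ0 ω) Pr (fun l => (l + 2) ^ c) d := by
    refine ae_all_iff.2 fun κ => ae_all_iff.2 fun c => ae_all_iff.2 fun Pr => ?_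
    by_cases h2 : Fast κ (fun l => (l + 2) ^ c)
    · filter_upwards [nonnullf hH fair Φ0 κ Pr _ (rt_free κ) h2] with ω hω _
      exact hω
    · exact Filter.Eventually.of_forall fun ω h => (h2 h).elim
  have a2 : ∀ᵐ ω ∂(coin Φ0), ∀ (κ c : ℕ) (Pr : List Instr),
      Fast κ (fun l => 2 ^ ((Nat.log 2 l + 2) ^ c)) →
      ¬ ∃ d : ℕ → List Bool → ℝ, IsNullCover d {Rl (zo Φ0 ω) κ} ∧
        Approx (oo Φ0 ω) Pr (fun l => 2 ^ ((Nat.log 2 l + 2) ^ c)) d := by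
    refine ae_all_iff.2 fun κ => ae_all_iff.2 fun c => ae_all_iff.2 fun Pr => ?_
    by_cases h2 : Fast κ (fun l => 2 ^ ((Nat.log 2 l + 2) ^ c))
    · filter_upwards [nonnullf hH fair Φ0 κ Pr _ (rt_free κ) h2] with ω hω _
      exact hω
    · exact Filter.Eventually.of_forall fun ω h => (h2 h).elim
  obtain ⟨ω, h1, h2, h3⟩ := ((upp_of mhit Φ0).and (a1.and a2)).exists
  refine ⟨oo Φ0 ω, ?_, ?_, fun s hs => h1.1 s hs, fun s hs => ?_⟩
  · rintro ⟨d, hd1, Pr, c, hA⟩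
    obtain ⟨κ₀, hκ₀⟩ := fast1 c
    obtain ⟨κ, h5, h6⟩ : ∃ κ, κ₀ ≤ κ ∧ κ % 2 = 1 := ⟨2 * κ₀ + 1, by omega, by omega⟩
    refine h2 κ c Pr (hκ₀ κ h5 h6) ⟨d, fun k => ?_, hA⟩
    refine ⟨(hd1 k).1, (hd1 k).2.1, ?_⟩
    rintro A rfl
    exact (hd1 k).2.2 _ ⟨npr _ _ _, e1r _ _ _ h6⟩
  · rintro ⟨d, hd1, Pr, c, hA⟩
    obtain ⟨κ₀, hκ₀⟩ := fast2 c
    obtain ⟨κ, h5, h6⟩ : ∃ κ, κ₀ ≤ κ ∧ κ % 2 = 0 := ⟨2 * κ₀, by omega, by omega⟩
    refine h3 κ c Pr (hκ₀ κ h5 h6) ⟨d, fun k => ?_, hA⟩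
    refine ⟨(hd1 k).1, (hd1 k).2.1, ?_⟩
    rintro A rfl
    exact (hd1 k).2.2 _ ⟨npr _ _ _, e2r _ _ _ h6⟩
  · refine (galenull (b := true) (fun A _ k => cov1 rfl _ A k) ?_).2
    show (if true = true then (1 : ℝ) else 1) < s
    rw [if_pos rfl]
    exact hs

end Pool.Agent.RelXP
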