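import Pool.Agent.RelX.HIT

/-!
# The view of a gambler
-/

set_option autoImplicit false

namespace Pool.Agent.RelX

open MeasureTheory Set
open scoped ENNReal
open Pool.Agent.RelM (Lang Instr Cfg step run Halts pair str pre wq sq0 sq1 Asks hq qb)
open Pool.Agent.RelO (lev levmono)
open Pool.Agent.RelV (Cd cde cde_surj mN mM nu)
open Pool.Agent.RelS (Z Rl orcV orc Idx Om Dep mixP fd meas_of_dep ovis ocut bern)
open Pool.Agent.RelT (Par Hist md md_pos md_spec ix ix_str qf seto)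

section
variable {Φ : Par2} {κ t : ℕ}

theorem bl_pos (h0 : nn Φ 0 ≤ lev κ (str t)) :
    ∃ J, bl Φ κ (str t) = J + 1 ∧ nn Φ J ≤ lev κ (str t) ∧ lev κ (str t) < nn Φ (J + 1) := by
  obtain ⟨i, h1, h2, _⟩ := stage Φ h0 le_rfl
  exact ⟨i, jj_eq h1 h2, h1, h2⟩

/-- The two kinds of views. -/
theorem view (h0 : nn Φ 0 ≤ lev κ (str t)) : ∃ J, bl Φ κ (str t) = J + 1 ∧
    nn Φ J ≤ lev κ (str t) ∧ lev κ (str t) < nn Φ (J + 1) ∧
    ((κ % 2 = 0 ∧ ty Φ J = false ∧ lev κ (str t) < nu J (nn Φ J) ∧ vs Φ κ t = J ∧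
        le Φ κ t = nn Φ J) ∨
      ((κ % 2 = 0 → ty Φ J = false → nu J (nn Φ J) ≤ lev κ (str t)) ∧ vs Φ κ t = J + 1 ∧
        le Φ κ t = lev κ (str t))) := by
  obtain ⟨J, hJ, hJ1, hJ2⟩ := bl_pos h0
  refine ⟨J, hJ, hJ1, hJ2, ?_⟩
  by_cases hb : Blind Φ κ t
  · left
    have hb' := hb
    unfold Blind at hb'
    rw [hJ, Nat.add_sub_cancel] at hb'
    refine ⟨hb'.1, hb'.2.1, hb'.2.2, ?_, ?_⟩
    · unfold vs
      rw [if_pos hb, hJ, Nat.add_sub_cancel]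
    · unfold le
      rw [if_pos hb, hJ, Nat.add_sub_cancel]
  · right
    have hb' := hb
    unfold Blind at hb'
    rw [hJ, Nat.add_sub_cancel] at hb'
    refine ⟨fun e1 e2 => ?_, ?_, ?_⟩
    · by_contra h
      exact hb' ⟨e1, e2, not_le.1 h⟩
    · unfold vs
      rw [if_neg hb, hJ]
    · unfold le
      rw [if_neg hb]

/-- The stage seen is at most the stage of the word. -/
theorem own_ge (h0 : nn Φ 0 ≤ lev κ (str t)) {t' : ℕ} (ht : t ≤ t') :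
    lev κ (str t) ≤ lev κ (str t') := lev_mono κ ht

theorem le_zero (h0 : nn Φ 0 ≤ lev κ (str t)) : nn Φ 0 ≤ le Φ κ t := by
  obtain ⟨J, _, _, _, h | h⟩ := view h0
  · rw [h.2.2.2.2]
    exact (nnmono Φ).monotone (Nat.zero_le J)
  · rw [h.2.2]
    exact h0

/-- Below this level nothing but own later pairs is hidden. -/
theorem le_vs (h0 : nn Φ 0 ≤ lev κ (str t)) : le Φ κ t ≤ nn Φ (vs Φ κ t) := by
  obtain ⟨J, _, _, hJ2, h | h⟩ := view h0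
  · rw [h.2.2.2.2, h.2.2.2.1]
  · rw [h.2.2, h.2.1]
    exact hJ2.le

theorem le_lev (h0 : nn Φ 0 ≤ lev κ (str t)) : le Φ κ t ≤ lev κ (str t) := by
  obtain ⟨J, _, hJ1, _, h | h⟩ := view h0
  · rw [h.2.2.2.2]
    exact hJ1
  · rw [h.2.2]

/-- Hidden pairs are expensive. -/
theorem hidden_ge (h0 : nn Φ 0 ≤ lev κ (str t)) {κ' : ℕ} {x' : List Bool}
    (h : ¬ SS Φ κ t κ' x') : le Φ κ t ≤ lev κ' x' := by
  by_cases h1 : lev κ' x' < nn Φ (vs Φ κ t)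
  · have h2 : κ' = κ ∧ ∃ t', t ≤ t' ∧ x' = str t' := by
      by_contra h3
      exact h (Or.inl ⟨h1, h3⟩)
    obtain ⟨rfl, t', ht, rfl⟩ := h2
    exact (le_lev h0).trans (lev_mono _ ht)
  · have := le_vs h0
    omega

/-- The coins on which the visible history depends are visible. -/
theorem old_vis (h0 : nn Φ 0 ≤ lev κ (str t)) {a : Idx} (ha : a ∈ Lw Φ (le Φ κ t)) :
    a ∈ Vis Φ κ t := by
  refine ⟨Or.inl ⟨ha.1.trans_le (le_vs h0), ?_⟩, ha.2⟩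
  rintro ⟨h1, t', ht', h2⟩
  have h3 : lev a.1 a.2.1 < le Φ κ t := ha.1
  rw [h1, h2] at h3
  have h4 := lev_mono κ ht'
  have h5 := le_lev h0
  omega

/-- The visible history depends only on the visible coins. -/
theorem hs_vis (hκ : κ % 2 = 0) (h0 : nn Φ 0 ≤ lev κ (str t)) {ω ω' : Om} (h : ∀ a ∈ Vis Φ κ t, ω a = ω' a) :
    hs Φ ω (vs Φ κ t) = hs Φ ω' (vs Φ κ t) := by
  obtain ⟨J, hJ, hJ1, hJ2, hv | hv⟩ := view h0
  · rw [hv.2.2.2.1]
    refine hs_congr fun a ha => h a (old_vis h0 ?_)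
    rw [hv.2.2.2.2]
    exact ha
  · rw [hv.2.1]
    refine hsdep Φ J ω ω' fun a ha => h a ?_
    rcases ha with ha | ⟨ha1, ha2, ha3⟩ | ⟨ha1, ha2, ha3⟩
    · refine old_vis h0 ?_
      rw [hv.2.2]
      exact lw_mono Φ hJ1 ha
    rotate_left
    · refine ⟨Or.inl ⟨?_, ?_⟩, ha3.2⟩
      · rw [hv.2.1]
        exact ha3.1
      · rintro ⟨h1, _⟩
        rw [h1] at ha2
        omega
    · refine ⟨Or.inl ⟨?_, ?_⟩, ha3.2⟩
      · rw [hv.2.1]
        exact ha3.1.trans (nnnu Φ J)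
      · rintro ⟨h1, t', ht', h2⟩
        have h3 : lev a.1 a.2.1 < nu J (nn Φ J) := ha3.1
        rw [h1, h2] at h3
        rw [h1] at ha2
        have h4 := lev_mono κ ht'
        have h5 := hv.1 ha2 ha1
        omega

/-- The option seen by own earlier pairs and by this pair is final. -/
theorem oc_view (h0 : nn Φ 0 ≤ lev κ (str t)) {m : ℕ} (hm : m ≤ lev κ (str t)) (ω : Om) :
    oc Φ (hs Φ ω (vs Φ κ t)).1 κ m = oc Φ (hf Φ ω).1 κ m := by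
  obtain ⟨J, hJ, hJ1, hJ2, hv⟩ := view h0
  have hjm : jj Φ m ≤ J + 1 := jj_lt_le (by omega)
  rcases hv with hv | hv
  · by_cases h1 : jj Φ m ≤ J
    · refine oc_congr ?_
      rw [hv.2.2.2.1]
      exact (hsval Φ ω J).1 _ h1
    · have h2 : jj Φ m = J + 1 := by omega
      unfold oc
      rw [h2, Nat.add_sub_cancel, hv.2.1]
      have h3 : ¬ κ % 2 = 1 := by omega
      simp [h3]
  · refine oc_congr ?_
    rw [hv.2.1]
    exact (hsval Φ ω (J + 1)).1 _ hjm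

/-- On visible pairs the worlds agree. -/
theorem zz_view (h0 : nn Φ 0 ≤ lev κ (str t)) {κ₁ : ℕ} {x₁ : List Bool} (hS : SS Φ κ t κ₁ x₁)
    (y₁ : List Bool) (ω : Om) :
    zz Φ (hf Φ ω).1 ω κ₁ x₁ y₁ = zz Φ (hs Φ ω (vs Φ κ t)).1 ω κ₁ x₁ y₁ := by
  unfold zz
  rcases hS with hS | ⟨rfl, t', ht', rfl⟩
  · rw [oc_congr ((hsval Φ ω (vs Φ κ t)).1 (jj Φ (lev κ₁ x₁)) (jj_lt_le hS.1))]
  · rw [oc_view h0 (lev_mono _ ht'.le)]

/-- The hidden oracle depends only on the visible coins. -/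
theorem ov_dep (hκ : κ % 2 = 0) (h0 : nn Φ 0 ≤ lev κ (str t)) {ω ω' : Om}
    (h : ∀ a ∈ Vis Φ κ t, ω a = ω' a) : ov Φ κ t ω = ov Φ κ t ω' := by
  have hh := hs_vis hκ h0 h
  funext q
  unfold ov
  rw [hh]
  refine ovis _ _ _ _ (fun κ₁ x₁ y₁ hs₁ hy₁ => ?_) q
  unfold zz
  exact h _ ⟨hs₁, hy₁, (ocspec Φ _ κ₁ (lev κ₁ x₁) x₁ (gd_hs Φ ω' _)).1⟩

end

/-- Finding a hidden key. -/
theorem hit : T_HIT := by
  intro Φ κ t Pr X τ hκ h0 hXd hXl
  refine hitg Pr τ (visfin Φ κ t) (fun ω ω' h => ov_dep hκ h0 h) hXd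
    (fun κ' x' hS a ha => hidden_notMem hS ha) (le_zero h0) (fun κ' x' hS => hidden_ge h0 hS) ?_
  intro ω q hq hne
  rcases ocut (SS Φ κ t) (bitsOf Φ (hf Φ ω).2) (bitsOf Φ (hs Φ ω (vs Φ κ t)).2)
    (zz Φ (hf Φ ω).1 ω) (zz Φ (hs Φ ω (vs Φ κ t)).1 ω)
    (fun κ₁ x₁ y₁ hS _ => zz_view h0 hS y₁ ω) q hne with
    ⟨κ', x', y', hS, hy', hq', hz'⟩ | ⟨κ', x', m', hS, hq', hm'⟩ | ⟨u, hq', hu⟩
  · exact ⟨κ', x', y', hS, hq', hz'⟩
  · exfalso
    have h2 := Pool.Agent.RelM.HitJob.le_length_sq1 κ' x' m'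
    rw [← hq'] at h2
    have h4 : 2 ^ le Φ κ t ≤ 2 ^ lev κ' x' :=
      Nat.pow_le_pow_right (by norm_num) (hidden_ge h0 hS)
    have := hXl ω
    omega
  · exfalso
    apply hu
    refine blocn Φ _ _ u fun j hj => ?_
    have h5 : j < vs Φ κ t := by
      by_contra h6
      have h7 : nn Φ (vs Φ κ t) ≤ nn Φ j := (nnmono Φ).monotone (by omega)
      have h8 : 2 ^ le Φ κ t ≤ 2 ^ nn Φ j :=
        Nat.pow_le_pow_right (by norm_num) ((le_vs h0).trans h7)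
      have h9 : q.length = u.length + 2 := by rw [hq']; simp
      have := hXl ω
      omega
    exact ((hsval Φ ω (vs Φ κ t)).2 j h5).symm

end Pool.Agent.RelX
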