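import Pool.Agent.RelX.FIN
import Pool.Agent.RelX.PARC
import Pool.Agent.RelX.MEAS2
import Pool.Agent.RelX.PP
import Pool.Agent.RelX.VIEW
import Pool.Agent.RelX.FAIR

/-!
# All types: the final theorem
-/

set_option autoImplicit false

namespace Pool.Agent.RelX

theorem fin : T_FIN :=
  fin_of parc parf (meas2 hit fair fast2) Pool.Agent.RelXP.pp

end Pool.Agent.RelX
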