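import Pool.Agent.RelX.NN
import Pool.Agent.RelS.MEAS

/-!
# The accuracy of a stage, and infinitely many stages succeed
-/

set_option autoImplicit false

namespace Pool.Agent.RelX

open MeasureTheory Set
open scoped ENNReal
open Pool.Agent.RelM (Lang str)
open Pool.Agent.RelO (lev st levfin levmono)
open Pool.Agent.RelS (Idx Om Dep fd)
open Pool.Agent.RelT (md md_pos)

/-- The condition for the accuracy `v` at stage `j`. -/
def AP (j v : ℕ) : Prop := ∀ v' ≤ v,
  ((v' : ℝ) + 1) * (1 + 1 / md v') ≤ Real.sqrt (Real.sqrt ((j : ℝ) + 1))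

theorem ap_large (v : ℕ) : ∃ J, ∀ j, J ≤ j → AP j v := by
  have key : ∀ v' : ℕ, ∃ n : ℕ, ∀ j, n ≤ j →
      ((v' : ℝ) + 1) * (1 + 1 / md v') ≤ Real.sqrt (Real.sqrt ((j : ℝ) + 1)) := by
    intro v'
    obtain ⟨X, hX⟩ : ∃ X, X = ((v' : ℝ) + 1) * (1 + 1 / md v') := ⟨_, rfl⟩
    obtain ⟨n, hn⟩ := exists_nat_ge ((X ^ 2) ^ 2)
    refine ⟨n, fun j hj => ?_⟩
    rw [← hX]
    refine Real.le_sqrt_of_sq_le (Real.le_sqrt_of_sq_le ?_)
    have h1 : (n : ℝ) ≤ j := by exact_mod_cast hj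
    linarith
  induction v with
  | zero =>
    obtain ⟨n, hn⟩ := key 0
    refine ⟨n, fun j hj v' hv' => ?_⟩
    obtain rfl : v' = 0 := by omega
    exact hn j hj
  | succ v ih =>
    obtain ⟨J, hJ⟩ := ih
    obtain ⟨n, hn⟩ := key (v + 1)
    refine ⟨max J n, fun j hj v' hv' => ?_⟩
    rcases Nat.lt_or_ge v' (v + 1) with h | h
    · exact hJ j ((le_max_left _ _).trans hj) v' (by omega)
    · obtain rfl : v' = v + 1 := by omega
      exact hn j ((le_max_right _ _).trans hj)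

theorem av_le (j : ℕ) : av j ≤ j := Nat.findGreatest_le j

/-- The accuracy tends to infinity. -/
theorem av_ge (v : ℕ) : ∃ J, ∀ j, J ≤ j → v ≤ av j := by
  obtain ⟨J, hJ⟩ := ap_large v
  refine ⟨max J v, fun j hj => ?_⟩
  classical
  unfold av
  exact Nat.le_findGreatest ((le_max_right _ _).trans hj) (hJ j ((le_max_left _ _).trans hj))

/-- The accuracy is small. -/
theorem av_spec {j : ℕ} (h : av j ≠ 0) :
    ((av j : ℝ) + 1) * (1 + 1 / md (av j)) ≤ Real.sqrt (Real.sqrt ((j : ℝ) + 1)) := by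
  classical
  have h1 : AP j (av j) := by
    have h2 : av j = Nat.findGreatest (AP j) j := by
      unfold av AP
      congr
    rw [h2] at h ⊢
    exact Nat.findGreatest_of_ne_zero rfl h
  exact h1 (av j) le_rfl

/-- The accuracy of the stage of a late word is large. -/
theorem vl_ge (Φ : Par2) (κ v : ℕ) : ∃ t₀, ∀ t, t₀ ≤ t → v ≤ vl Φ (lev κ (str t)) := by
  obtain ⟨J, hJ⟩ := av_ge v
  refine ⟨2 ^ nn Φ (J + 1), fun t ht => ?_⟩
  have h2 := (levfin κ (str t) _ le_rfl).2
  rw [Pool.Agent.RelM.strlen] at h2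
  have h3 : nn Φ (J + 1) ≤ lev κ (str t) := by
    refine le_trans ?_ h2
    rw [Nat.le_log_iff_pow_le (by norm_num) (by omega)]
    omega
  have h4 : J + 1 < jj Φ (lev κ (str t)) := by
    by_contra h
    have h5 := (nnmono Φ).monotone (not_lt.1 h)
    have h6 := (jjspec Φ (lev κ (str t))).1
    omega
  exact hJ _ (by omega)

/-! ## Infinitely many stages succeed -/

/-- If the products of the probabilities of failure given the older coins tend to zero, then almost
surely infinitely many stages succeed. -/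
theorem bcx (μ : Measure Om) [IsProbabilityMeasure μ] (Old : ℕ → Set Idx)
    (hfin : ∀ j, (Old j).Finite) (hmono : ∀ i j, i ≤ j → Old i ⊆ Old j) (u : ℕ → ℕ)
    (hu : StrictMono u) (F : ℕ → Set Om)
    (hF : ∀ m, ∀ ω ω' : Om, (∀ a ∈ Old (u m + 1), ω a = ω' a) → (ω ∈ F m ↔ ω' ∈ F m))
    (ρ : ℕ → ℝ≥0∞) (hρ1 : ∀ n, Filter.Tendsto (fun m => ∏ i ∈ Finset.range m, ρ (n + i))
      Filter.atTop (nhds 0))
    (hρ : ∀ (m : ℕ) (H : Om → ℝ≥0∞), Measurable H → Dep (Old (u m)) H →
      ∫⁻ ω in F m, H ω ∂μ ≤ ρ m * ∫⁻ ω, H ω ∂μ) :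
    ∀ᵐ ω ∂μ, ∀ n : ℕ, ∃ m, n ≤ m ∧ ω ∉ F m := by
  refine ae_all_iff.2 fun n => ?_
  obtain ⟨A, hA⟩ : ∃ A : ℕ → Set Om, ∀ m, A m = {ω | ∀ i < m, ω ∈ F (n + i)} :=
    ⟨_, fun _ => rfl⟩
  have hd : ∀ m, ∀ ω ω' : Om, (∀ a ∈ Old (u (n + m)), ω a = ω' a) →
      (ω ∈ A m ↔ ω' ∈ A m) := by
    intro m ω ω' h
    rw [hA]
    simp only [Set.mem_ofPred_eq]
    refine forall_congr' fun i => forall_congr' fun hi => ?_
    refine hF _ _ _ fun a ha => h a (hmono _ _ ?_ ha)
    exact hu (show n + i < n + m by omega)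
  have hAm : ∀ m, MeasurableSet (A m) := fun m => fd (hfin _) (hd m)
  have hp : ∀ m, μ (A m) ≤ ∏ i ∈ Finset.range m, ρ (n + i) := by
    intro m
    induction m with
    | zero => simpa using prob_le_one
    | succ m ih =>
      have h1 : A (m + 1) = A m ∩ F (n + m) := by
        rw [hA, hA]
        ext ω
        simp only [Set.mem_ofPred_eq, Set.mem_inter_iff]
        constructor
        · intro h
          exact ⟨fun i hi => h i (by omega), h m (by omega)⟩
        · rintro ⟨h2, h3⟩ i hi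
          rcases Nat.lt_succ_iff_lt_or_eq.1 hi with h4 | h4
          · exact h2 i h4
          · rw [h4]; exact h3
      have h2 := hρ (n + m) ((A m).indicator 1) (measurable_one.indicator (hAm m)) (by
          intro ω ω' h
          have h3 := hd m ω ω' h
          by_cases h4 : ω ∈ A m
          · rw [indicator_of_mem h4, indicator_of_mem (h3.1 h4)]
            rfl
          · rw [indicator_of_notMem h4, indicator_of_notMem fun h5 => h4 (h3.2 h5)])
      rw [lintegral_indicator_one (hAm m), lintegral_indicator_one (hAm m),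
        Measure.restrict_apply (hAm m)] at h2
      rw [h1, Finset.prod_range_succ, mul_comm]
      exact h2.trans (by gcongr)
  rw [ae_iff]
  have h3 : {ω | ¬ ∃ m, n ≤ m ∧ ω ∉ F m} ⊆ ⋂ m, A m := by
    intro ω hω
    rw [Set.mem_ofPred_eq] at hω
    push Not at hω
    rw [Set.mem_iInter]
    intro m
    rw [hA]
    intro i _
    exact hω (n + i) (by omega)
  have h4 : ∀ m, μ {ω | ¬ ∃ m, n ≤ m ∧ ω ∉ F m} ≤ ∏ i ∈ Finset.range m, ρ (n + i) := fun m =>
    (measure_mono (h3.trans (Set.iInter_subset _ m))).trans (hp m)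
  exact le_antisymm (ge_of_tendsto' (hρ1 n) h4) zero_le

/-- The products tend to zero. -/
theorem prod_zero {c : ℝ} (hc : 0 < c) (M : ℕ) (ρ : ℕ → ℝ)
    (hρ : ∀ m, ρ m ≤ 1 - c / ((m + M : ℕ) : ℝ)) (n : ℕ) :
    Filter.Tendsto (fun m => ∏ i ∈ Finset.range m, ENNReal.ofReal (ρ (n + i)))
      Filter.atTop (nhds 0) := by
  have h1 : ∀ m, ∏ i ∈ Finset.range m, ENNReal.ofReal (ρ (n + i)) ≤
      ENNReal.ofReal (Real.exp (-c * ∑ i ∈ Finset.range m, 1 / (((i + (n + M) : ℕ)) : ℝ))) := by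
    intro m
    have h2 : Real.exp (-c * ∑ i ∈ Finset.range m, 1 / (((i + (n + M) : ℕ)) : ℝ)) =
        ∏ i ∈ Finset.range m, Real.exp (-c * (1 / (((i + (n + M) : ℕ)) : ℝ))) := by
      rw [Finset.mul_sum, Real.exp_sum]
    rw [h2, ENNReal.ofReal_prod_of_nonneg fun i _ => (Real.exp_pos _).le]
    refine Finset.prod_le_prod' fun i _ => ENNReal.ofReal_le_ofReal ?_
    refine (hρ (n + i)).trans ?_
    have h3 := Real.add_one_le_exp (-c * (1 / (((i + (n + M) : ℕ)) : ℝ)))
    have h4 : (n + i + M : ℕ) = i + (n + M) := by omega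
    rw [h4]
    have h5 : -c * (1 / (((i + (n + M) : ℕ)) : ℝ)) = -(c / (((i + (n + M) : ℕ)) : ℝ)) := by ring
    linarith
  have h2 : Filter.Tendsto (fun m => ∑ i ∈ Finset.range m, 1 / (((i + (n + M) : ℕ)) : ℝ))
      Filter.atTop Filter.atTop := by
    rw [← not_summable_iff_tendsto_nat_atTop_of_nonneg fun i => by positivity]
    rw [summable_nat_add_iff (f := fun i : ℕ => 1 / (i : ℝ)) (n + M)]
    exact Real.not_summable_one_div_natCast
  have h3 : Filter.Tendsto (fun m => Real.exp (-c * ∑ i ∈ Finset.range m,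
      1 / (((i + (n + M) : ℕ)) : ℝ))) Filter.atTop (nhds 0) := by
    refine Real.tendsto_exp_atBot.comp ?_
    exact h2.const_mul_atTop_of_neg (by linarith)
  have h4 := ENNReal.tendsto_ofReal h3
  rw [ENNReal.ofReal_zero] at h4
  exact tendsto_of_tendsto_of_tendsto_of_le_of_le tendsto_const_nhds h4 (fun _ => zero_le) h1

end Pool.Agent.RelX
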