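import Pool.Agent.RelT.CRSB

/-!
# The probability that a supergale is large at a given time
-/

set_option autoImplicit false

namespace Pool.Agent.RelX

open MeasureTheory Set
open scoped ENNReal
open Pool.Agent.RelT
open Pool.Agent.RelT.CRSB_

/-- The probability that a supergale is large at time `T`. -/
theorem crs1 {Ω : Type} [MeasurableSpace Ω] {μ : Measure Ω} [IsProbabilityMeasure μ]
    {b : ℕ → Ω → Bool} {X : ℕ → Bool → Ω → ℝ} {Y : Ω → ℝ} {p : ℕ → Ω → ℝ}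
    {r : ℕ → Ω → Ω → Prop} {ε : ℕ → ℝ} {a θ η : ℝ} (h : Cond μ b X Y p r ε a θ η)
    (s G V : ℝ) (T : ℕ) (hV : a ^ θ +
      ∑ t ∈ Finset.range T, (2 : ℝ) ^ (θ * (1 + |s|) * t) * ε t ^ θ ≤ V)
    (hG : ∀ ω : Ω, Real.exp (θ * (η * T - G)) ≤ wgt p s θ η T ω) :
    μ (GG b X Y ε a s T ∩ {ω | 1 / 2 ≤ prc b X Y T ω}) ≤
      ENNReal.ofReal (V * (2 : ℝ) ^ θ * Real.exp (θ * G) * Real.exp (-(θ * η)) ^ T) := by
  have hθ0 := h.hθ0
  obtain ⟨q, hq⟩ : ∃ q : ℝ, q = Real.exp (-(θ * η)) := ⟨_, rfl⟩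
  rw [← hq]
  obtain ⟨L, hL⟩ : ∃ L : ℝ, L = Real.exp (θ * (η * T - G)) * (1 / 2 : ℝ) ^ θ := ⟨_, rfl⟩
  have hL0 : 0 < L := by rw [hL]; positivity
  have h2 : ENNReal.ofReal L * μ (GG b X Y ε a s T ∩ {ω | 1 / 2 ≤ prc b X Y T ω}) ≤
      ENNReal.ofReal V := by
    calc ENNReal.ofReal L * μ (GG b X Y ε a s T ∩ {ω | 1 / 2 ≤ prc b X Y T ω})
        = ∫⁻ _ in GG b X Y ε a s T ∩ {ω | 1 / 2 ≤ prc b X Y T ω}, ENNReal.ofReal L ∂μ :=
          (setLIntegral_const _ _).symm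
      _ ≤ ∫⁻ ω in GG b X Y ε a s T ∩ {ω | 1 / 2 ≤ prc b X Y T ω},
          ENNReal.ofReal (wgt p s θ η T ω * (prc b X Y T ω) ^ θ) ∂μ := by
          refine setLIntegral_mono
            (((Wm h s T).mul ((Dm h T).pow_const θ)).ennreal_ofReal) ?_
          intro ω hω
          apply ENNReal.ofReal_le_ofReal
          rw [hL]
          refine mul_le_mul (hG ω) ?_ (by positivity) (W0 _ _ _).le
          exact Real.rpow_le_rpow (by norm_num) hω.2 hθ0.le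
      _ ≤ ∫⁻ ω in GG b X Y ε a s T,
          ENNReal.ofReal (wgt p s θ η T ω * (prc b X Y T ω) ^ θ) ∂μ :=
          lintegral_mono_set inter_subset_left
      _ ≤ _ := mean h s T
      _ ≤ ENNReal.ofReal V := ENNReal.ofReal_le_ofReal hV
  have h3 : μ (GG b X Y ε a s T ∩ {ω | 1 / 2 ≤ prc b X Y T ω}) ≤
      ENNReal.ofReal (L⁻¹) * ENNReal.ofReal V := by
    calc μ (GG b X Y ε a s T ∩ {ω | 1 / 2 ≤ prc b X Y T ω})
        = ENNReal.ofReal (L⁻¹) * (ENNReal.ofReal L *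
          μ (GG b X Y ε a s T ∩ {ω | 1 / 2 ≤ prc b X Y T ω})) := by
          rw [← mul_assoc, ← ENNReal.ofReal_mul (by positivity), inv_mul_cancel₀ hL0.ne',
            ENNReal.ofReal_one, one_mul]
      _ ≤ _ := by gcongr
  refine h3.trans ?_
  rw [← ENNReal.ofReal_mul (by positivity)]
  apply ENNReal.ofReal_le_ofReal
  apply le_of_eq
  have e1 : L⁻¹ = (2 : ℝ) ^ θ * Real.exp (θ * G) * q ^ T := by
    rw [hL, hq, mul_inv, ← Real.exp_neg, one_div, Real.inv_rpow (by norm_num), inv_inv,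
      ← Real.exp_nat_mul]
    rw [mul_comm, mul_assoc, ← Real.exp_add]
    congr 2
    ring
  rw [e1]
  ring

end Pool.Agent.RelX
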