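import Pool.Agent.RelX.Targets2

/-!
# Null covers by `1`-supergales are null covers; monotonicity in the exponent
-/

set_option autoImplicit false

namespace Pool.Agent.RelX

open MeasureTheory Set
open scoped ENNReal
open Pool.Agent.RelM (Lang Instr NP E1 E2 Approx IsNullCover Null1 Null2 IsDensity str)
open Pool.Agent.RelO (GaleNull1 GaleNull2 IsGale IsGaleCover)

lemma gale_one_iff (d : List Bool → ℝ) : IsGale 1 d ↔ IsDensity d := by
  constructor
  · intro h
    refine ⟨h.nonneg, fun w => ?_⟩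
    have := h.le w
    rw [Real.rpow_one] at this
    linarith
  · intro h
    refine ⟨h.nonneg, fun w => ?_⟩
    have := h.avg w
    rw [Real.rpow_one]
    linarith

lemma galeCover_one_iff (d : ℕ → List Bool → ℝ) (X : Set Lang) :
    IsGaleCover 1 d X ↔ IsNullCover d X := by
  unfold IsGaleCover IsNullCover
  simp only [gale_one_iff]

theorem link : T_LINK := by
  intro O X
  unfold GaleNull1 GaleNull2 Null1 Null2
  simp only [galeCover_one_iff]
  exact ⟨trivial, trivial⟩

lemma gale_mono {s s' : ℝ} (h : s ≤ s') {d : List Bool → ℝ} (hd : IsGale s d) : IsGale s' d :=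
  ⟨hd.nonneg, fun w => (hd.le w).trans (mul_le_mul_of_nonneg_right
    (Real.rpow_le_rpow_of_exponent_le one_le_two h) (hd.nonneg w))⟩

theorem gmono (s s' : ℝ) (h : s ≤ s') (O : Lang) (X : Set Lang) :
    (GaleNull1 s O X → GaleNull1 s' O X) ∧ (GaleNull2 s O X → GaleNull2 s' O X) := by
  constructor
  · rintro ⟨d, hd, hP⟩
    exact ⟨d, fun k => ⟨gale_mono h (hd k).1, (hd k).2⟩, hP⟩
  · rintro ⟨d, hd, hP⟩
    exact ⟨d, fun k => ⟨gale_mono h (hd k).1, (hd k).2⟩, hP⟩

end Pool.Agent.RelX
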