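import Pool.Agent.RelX.Targets2
import Pool.Agent.RelS.STAR

/-!
# Parameters for dimension one and measure zero
-/

set_option autoImplicit false

namespace Pool.Agent.RelX

open Real
open Pool.Agent.RelS (gf PF Low)

namespace PARO_

theorem log_quot {t : ℝ} (h0 : 0 ≤ t) (h1 : t < 1) : 2 * t ≤ log (1 + t) - log (1 - t) := by
  have h := Real.hasSum_log_sub_log_of_abs_lt_one (x := t) (by rw [abs_of_nonneg h0]; exact h1)
  have h2 := le_hasSum h 0 (fun j _ => by positivity)
  simpa using h2

theorem bin_half {p : ℝ} (h0 : 0 ≤ p) (h1 : p ≤ 1 / 2) :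
    binEntropy p ≤ log 2 - 2 * (p - 1 / 2) ^ 2 := by
  have hanti : AntitoneOn (fun p : ℝ => log 2 - 2 * (p - 1 / 2) ^ 2 - binEntropy p)
      (Set.Icc 0 (1 / 2)) := by
    apply antitoneOn_of_deriv_nonpos (convex_Icc _ _)
    · exact (Continuous.sub (by fun_prop) Real.binEntropy_continuous).continuousOn
    · intro x hx
      rw [interior_Icc] at hx
      have h3 := Real.hasDerivAt_binEntropy (p := x) hx.1.ne' (by linarith [hx.2])
      exact (DifferentiableAt.sub (by fun_prop) h3.differentiableAt).differentiableWithinAt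
    · intro x hx
      rw [interior_Icc] at hx
      have h3 := Real.hasDerivAt_binEntropy (p := x) hx.1.ne' (by linarith [hx.2])
      have h4 : HasDerivAt (fun p : ℝ => log 2 - 2 * (p - 1 / 2) ^ 2)
          (-(2 * (2 * (x - 1 / 2)))) x := by
        have h5 : HasDerivAt (fun p : ℝ => (p - 1 / 2) ^ 2) (2 * (x - 1 / 2)) x := by
          have := ((hasDerivAt_id' x).sub_const (1 / 2)).fun_pow 2
          simpa using this
        have := (h5.const_mul 2).const_sub (log 2)
        simpa using this
      have h6 := (h4.sub h3).deriv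
      have h7 : deriv (fun p : ℝ => log 2 - 2 * (p - 1 / 2) ^ 2 - binEntropy p) x =
          -(2 * (2 * (x - 1 / 2))) - (log (1 - x) - log x) := h6
      rw [h7]
      have h8 := log_quot (t := 1 - 2 * x) (by linarith [hx.2]) (by linarith [hx.1])
      have h9 : log (1 + (1 - 2 * x)) = log 2 + log (1 - x) := by
        rw [← log_mul (by norm_num) (by linarith [hx.2])]
        congr 1
        ring
      have h10 : log (1 - (1 - 2 * x)) = log 2 + log x := by
        rw [← log_mul (by norm_num) hx.1.ne']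
        congr 1
        ring
      rw [h9, h10] at h8
      linarith
  have h2 := hanti (a := p) (b := 1 / 2) ⟨h0, h1⟩ ⟨by norm_num, le_rfl⟩ h1
  have h3 : binEntropy (1 / 2) = log 2 := by
    rw [one_div]
    exact Real.binEntropy_two_inv
  simp only [sub_self, h3] at h2
  norm_num at h2
  norm_num
  linarith

theorem bin_quad {p : ℝ} (h0 : 0 ≤ p) (h1 : p ≤ 1) :
    binEntropy p ≤ log 2 - 2 * (p - 1 / 2) ^ 2 := by
  rcases le_total p (1 / 2) with h | h
  · exact bin_half h0 h
  · have h2 := bin_half (p := 1 - p) (by linarith) (by linarith)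
    rw [Real.binEntropy_one_sub] at h2
    have h3 : (1 - p - 1 / 2) ^ 2 = (p - 1 / 2) ^ 2 := by ring
    rwa [h3] at h2

theorem avg {x ε : ℝ} (hx : 0 ≤ x) (e0 : 0 ≤ ε) (e1 : ε ≤ 1) :
    (gf x + gf ((1 + ε) * x)) / 2 ≤ log 2 - ε ^ 2 / 512 := by
  set p : ℝ := exp (-x) with hp
  set q : ℝ := exp (-((1 + ε) * x)) with hq
  have hg1 : gf x = binEntropy p := rfl
  have hg2 : gf ((1 + ε) * x) = binEntropy q := rfl
  rw [hg1, hg2]
  have p0 : 0 < p := exp_pos _
  have p1 : p ≤ 1 := exp_le_one_iff.2 (by linarith)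
  have q0 : 0 < q := exp_pos _
  have q1 : q ≤ 1 := exp_le_one_iff.2 (by
    have : 0 ≤ (1 + ε) * x := by positivity
    linarith)
  have hbp := bin_quad p0.le p1
  have hbq := bin_quad q0.le q1
  have hqp : q = p * p ^ ε := by
    rw [hp, hq, ← exp_mul, ← exp_add]
    congr 1
    ring
  have hes : ε ^ 2 ≤ 1 := by nlinarith
  rcases le_or_gt (1 / 4) |p - 1 / 2| with h | h
  · have h2 : (1 / 4 : ℝ) ^ 2 ≤ (p - 1 / 2) ^ 2 := by
      rw [← sq_abs (p - 1 / 2)]
      exact pow_le_pow_left₀ (by norm_num) h 2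
    nlinarith [sq_nonneg (q - 1 / 2)]
  · rw [abs_lt] at h
    have h3 : p ^ ε ≤ 1 - ε / 4 := by
      have h4 : p ^ ε ≤ (3 / 4 : ℝ) ^ ε := rpow_le_rpow p0.le (by linarith [h.2]) e0
      have h5 := rpow_one_add_le_one_add_mul_self (s := -(1 / 4)) (by norm_num) e0 e1
      have h6 : (1 + -(1 / 4) : ℝ) = 3 / 4 := by norm_num
      rw [h6] at h5
      linarith
    have h7 : ε / 16 ≤ p - q := by
      rw [hqp]
      nlinarith [h.1]
    have h8 : (ε / 16) ^ 2 ≤ (p - q) ^ 2 := pow_le_pow_left₀ (by positivity) h7 2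
    nlinarith [sq_nonneg ((p - 1 / 2) + (q - 1 / 2))]

/-- the accuracy -/
noncomputable def ep (v : ℕ) : ℝ := min 1 (sqrt (2560 / ((v : ℝ) + 1)))

theorem ep0 (v : ℕ) : 0 ≤ ep v := le_min zero_le_one (sqrt_nonneg _)

theorem ep1 (v : ℕ) : ep v ≤ 1 := min_le_left _ _

theorem ep_tendsto : Filter.Tendsto ep Filter.atTop (nhds 0) := by
  have h1 : Filter.Tendsto (fun v : ℕ => 2560 / ((v : ℝ) + 1)) Filter.atTop (nhds 0) :=
    Filter.Tendsto.div_atTop tendsto_const_nhds
      (Filter.tendsto_atTop_add_const_right _ _ tendsto_natCast_atTop_atTop)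
  have h2 : Filter.Tendsto (fun v : ℕ => sqrt (2560 / ((v : ℝ) + 1))) Filter.atTop (nhds 0) := by
    have := (Real.continuous_sqrt.tendsto 0).comp h1
    rwa [sqrt_zero] at this
  have h3 : Filter.Tendsto (fun v : ℕ => min (1 : ℝ) (sqrt (2560 / ((v : ℝ) + 1))))
      Filter.atTop (nhds (min 1 0)) := tendsto_const_nhds.min h2
  rwa [min_eq_right zero_le_one] at h3

/-- the intensities -/
noncomputable def la (v i : ℕ) : ℝ := (if i = 0 then 1 else 1 + ep v) * log 2

theorem l2 : 0 < log 2 := log_pos (by norm_num)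

theorem la_pos (v i : ℕ) : 0 < la v i := by
  unfold la
  have := ep0 v
  split_ifs
  · exact mul_pos one_pos l2
  · exact mul_pos (by linarith) l2

theorem la_mono (v : ℕ) : Monotone (la v) := by
  intro i j hij
  unfold la
  apply mul_le_mul_of_nonneg_right _ l2.le
  have := ep0 v
  split_ifs with h1 h2
  · exact le_rfl
  · linarith
  · exfalso
    omega
  · exact le_rfl

theorem cov_ok (v : ℕ) {D : Type} [Fintype D] {e : D → ℝ} (he : ∀ d, 0 ≤ e d)
    {A : Set (D → Bool)} (hA : Low A) :
    ∑ i ∈ Finset.range 2, (1 / 2 : ℝ) *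
      binEntropy (PF (fun d => exp (-(la v i * e d))) A) ≤ log 2 - ep v ^ 2 / 512 := by
  have q0 : ∀ (i : ℕ) d, 0 ≤ exp (-(la v i * e d)) := fun i d => (exp_pos _).le
  have q1 : ∀ (i : ℕ) d, exp (-(la v i * e d)) ≤ 1 := fun i d => by
    refine exp_le_one_iff.2 ?_
    have := mul_nonneg (la_pos v i).le (he d)
    linarith
  obtain ⟨u, hu, h⟩ := Pool.Agent.RelS.dilate (K := 2) (by norm_num)
    (lam := fun i : Fin 2 => la v i) (fun i => la_pos v i)
    (fun i j hij => la_mono v (by exact_mod_cast hij))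
    (v := fun i => PF (fun d => exp (-(la v i * e d))) A)
    (fun i => Pool.Agent.RelS.PF_nonneg (q0 i) (q1 i) A)
    (fun i => Pool.Agent.RelS.PF_le_one (q0 i) (q1 i) A) (by
      intro i j hij
      have hγ : 1 ≤ la v j / la v i := by
        rw [le_div_iff₀ (la_pos v i), one_mul]
        exact la_mono v (by exact_mod_cast hij)
      have h1 := Pool.Agent.RelS.star hγ (q0 i) (q1 i) hA
      refine le_trans (le_of_eq ?_) h1
      congr 1
      funext d
      rw [← exp_mul]
      congr 1
      have := (la_pos v i).ne'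
      field_simp)
  have h0 := h 0
  have h1 := h 1
  have hx : 0 ≤ log 2 * u := mul_nonneg l2.le hu
  have hav := avg hx (ep0 v) (ep1 v)
  have e0 : la v ((0 : Fin 2) : ℕ) * u = log 2 * u := by simp [la]
  have e1 : la v ((1 : Fin 2) : ℕ) * u = (1 + ep v) * (log 2 * u) := by
    simp [la]
    ring
  rw [e0] at h0
  rw [e1] at h1
  simp only [Fin.val_zero, Fin.val_one] at h0 h1
  rw [Finset.sum_range_succ, Finset.sum_range_one]
  linarith

theorem hid_ok (κ : ℕ) : ∃ v₀ : ℕ, ∀ v, v₀ ≤ v → ∀ i,
    log 2 - 1 / ((κ : ℝ) + 1) ≤ gf (la v i) := by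
  have h1 : Filter.Tendsto (fun v => gf ((1 + ep v) * log 2)) Filter.atTop (nhds (log 2)) := by
    have h2 : Filter.Tendsto (fun v => (1 + ep v) * log 2) Filter.atTop
        (nhds ((1 + 0) * log 2)) := (ep_tendsto.const_add 1).mul_const _
    have h3 := (Pool.Agent.RelS.gf_cont.tendsto ((1 + 0) * log 2)).comp h2
    have h4 : gf ((1 + 0) * log 2) = log 2 := by
      rw [add_zero, one_mul]
      exact Pool.Agent.RelS.gf_log_two
    rw [h4] at h3
    exact h3
  have hk : (0 : ℝ) < 1 / ((κ : ℝ) + 1) := by positivity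
  have h5 := h1.eventually (Ioi_mem_nhds (show log 2 - 1 / ((κ : ℝ) + 1) < log 2 by linarith))
  obtain ⟨v₀, hv₀⟩ := Filter.eventually_atTop.1 h5
  refine ⟨v₀, fun v hv i => ?_⟩
  unfold la
  split_ifs with hi
  · rw [one_mul, Pool.Agent.RelS.gf_log_two]
    linarith
  · exact le_of_lt (hv₀ v hv)

end PARO_

theorem paro : T_PARO := by
  have hl := PARO_.l2
  have hl1 : log 2 ≤ 1 := by
    have := Real.log_two_lt_d9
    linarith
  have hl7 : (1 / 2 : ℝ) ≤ log 2 := by
    have := Real.log_two_gt_d9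
    linarith
  have hes : ∀ v, PARO_.ep v ^ 2 ≤ 1 := fun v => by
    have h0 := PARO_.ep0 v
    have h1 := PARO_.ep1 v
    nlinarith
  refine ⟨{ a := fun v => (log 2 - PARO_.ep v ^ 2 / 512) / log 2
            ai := 1
            s := fun _ => 1
            K := 2
            lam := PARO_.la
            dm := fun _ => 1
            mul := fun _ _ => 1
            B := 2
            pv := fun _ => 1 / 2
            a0 := ?_
            a1 := ?_
            s0 := fun _ => zero_le_one
            s2 := fun _ => one_le_two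
            K1 := one_le_two
            lam0 := fun v i => (PARO_.la_pos v i).le
            dm1 := fun _ => le_rfl
            mul0 := fun _ _ => zero_le_one
            bd := ?_
            pv0 := fun _ => by norm_num
            pv1 := by norm_num
            cov := ?_
            hid := ?_
            gap := ?_ }, rfl, fun _ => rfl⟩
  · intro v
    have := hes v
    exact div_nonneg (by linarith) hl.le
  · intro v
    rw [div_le_one hl]
    have := sq_nonneg (PARO_.ep v)
    linarith
  · intro v i κ c _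
    have h1 := PARO_.ep1 v
    have h0 := PARO_.ep0 v
    unfold PARO_.la
    push_cast
    split_ifs <;> nlinarith
  · intro v D inst e A he hA
    have h := PARO_.cov_ok v he hA
    rw [div_mul_cancel₀ _ hl.ne']
    exact h
  · intro κ
    obtain ⟨v₀, h⟩ := PARO_.hid_ok κ
    refine ⟨v₀, fun v hv i _ => ?_⟩
    have := h v hv i
    simpa using this
  · intro k
    refine ⟨2560, fun v hv => ?_⟩
    have hv' : (2560 : ℝ) ≤ v := by exact_mod_cast hv
    have hpos : (0 : ℝ) < (v : ℝ) + 1 := by linarith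
    have h1 : PARO_.ep v ^ 2 = 2560 / ((v : ℝ) + 1) := by
      unfold PARO_.ep
      have h2 : sqrt (2560 / ((v : ℝ) + 1)) ≤ 1 := by
        rw [Real.sqrt_le_one, div_le_one hpos]
        linarith
      rw [min_eq_right h2, Real.sq_sqrt (by positivity)]
    rw [div_mul_cancel₀ _ hl.ne', h1]
    have h3 : 2560 / ((v : ℝ) + 1) / 512 = 5 / ((v : ℝ) + 1) := by
      field_simp
      norm_num
    rw [h3]
    linarith

end Pool.Agent.RelX
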