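import Pool.Agent.RelM.READ
import Pool.Agent.RelV.DOUB

/-!
# Reading numbers of any size
-/

set_option autoImplicit false

namespace Pool.Agent.RelX

open Pool.Agent.RelM (Lang Instr Cfg step run Halts Approx triple outVal binVal stay halts_mono)
open Pool.Agent.RelM.READ_ (prg prg_length Rc cf bl mk rounds first_no last_no st_push0 start_eq
  binVal_size)

/-- Reading one number. -/
theorem readp {O : Lang} {I : List Bool} {n R : ℕ} (hR : 1 ≤ R)
    (h1 : ∀ j, O (true :: true :: false :: false :: (List.replicate j true ++ false :: I)) = true ↔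
      j < Nat.size n)
    (h2 : ∀ j, O (true :: true :: false :: true :: (List.replicate j true ++ false :: I)) = true ↔
      Nat.testBit n j = true)
    (h3 : ∀ j, O (true :: true :: true :: false :: (List.replicate j true ++ false :: I)) = true ↔
      j < R) {T : ℕ} (hT : 40 * max (Nat.size n) R + 15 ≤ T) :
    Halts O prg I T ∧ outVal (run O prg I T) = (n : ℝ) / 2 ^ R := by
  obtain ⟨r, rfl⟩ : ∃ r, R = r + 1 := ⟨R - 1, by omega⟩
  obtain ⟨M, hM⟩ : ∃ M, M = max (Nat.size n) (r + 1) := ⟨_, rfl⟩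
  rw [← hM] at hT
  have e1 : min M (Nat.size n) = Nat.size n := min_eq_right (by rw [hM]; exact le_max_left _ _)
  have e2 : min M (r + 1) = r + 1 := min_eq_right (by rw [hM]; exact le_max_right _ _)
  obtain ⟨t, ht, hr⟩ := rounds h1 h2 h3 M (le_of_eq hM)
  -- the first step
  have s0 : Rc O 1 ⟨0, mk I [] []⟩ (cf I n r 0) := by
    have : Rc O 1 ⟨0, mk I [] []⟩ ⟨1, mk (false :: I) [] []⟩ := Rc.one (st_push0 rfl)
    simpa [cf, bl] using this
  -- the last round
  have hend : Rc O 14 (cf I n r M)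
      ⟨43, mk (true :: true :: true :: false :: (List.replicate M true ++ false :: I))
        (bl n (Nat.size n)) (List.replicate (r + 1) true)⟩ := by
    unfold cf
    rw [e1, e2]
    refine (first_no _ _ _ ?_).trans (last_no _ _ _ _ _ _ _ ?_)
    · intro h'
      have := (h1 M).1 h'
      omega
    · intro h'
      have := (h3 M).1 h'
      omega
  have htot := (s0.trans hr).trans hend
  have hrun : run O prg I (1 + t + 14) =
      ⟨43, mk (true :: true :: true :: false :: (List.replicate M true ++ false :: I))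
        (bl n (Nat.size n)) (List.replicate (r + 1) true)⟩ := by
    unfold run
    rw [start_eq]
    exact htot.eq
  have hhalt : Halts O prg I (1 + t + 14) := by
    unfold Halts
    rw [hrun, prg_length]
  have hfin : run O prg I T = run O prg I (1 + t + 14) := stay O prg I _ _ hhalt (by omega)
  refine ⟨?_, ?_⟩
  · unfold Halts
    rw [hfin]
    exact hhalt
  · rw [hfin, hrun]
    unfold outVal
    have g1 : (mk (true :: true :: true :: false :: (List.replicate M true ++ false :: I))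
        (bl n (Nat.size n)) (List.replicate (r + 1) true)) 1 = bl n (Nat.size n) := rfl
    have g2 : (mk (true :: true :: true :: false :: (List.replicate M true ++ false :: I))
        (bl n (Nat.size n)) (List.replicate (r + 1) true)) 2 = List.replicate (r + 1) true := rfl
    have g3 : (mk (true :: true :: true :: false :: (List.replicate M true ++ false :: I))
        (bl n (Nat.size n)) (List.replicate (r + 1) true)) 3 = [] := rfl
    simp only [g1, g2, g3, if_true, binVal_size, List.length_replicate, one_mul]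

/-- The program for the members of one kind of a sequence, without the first members. -/
def prog2 (b : Bool) (l : ℕ) (P : List Instr) : List Instr :=
  Pool.Agent.RelS.SHIFT_.prog l (Pool.Agent.RelV.DOUB_.prog b P)

theorem halts_two {O : Lang} {b : Bool} {l : ℕ} {P : List Instr} {k r n : ℕ} {w : List Bool}
    (h : Halts O P (triple (2 * (k + l) + b.toNat) r w) n) :
    Halts O (prog2 b l P) (triple k r w) (l + (10 * (k + l) + 4 + n)) ∧
    outVal (run O (prog2 b l P) (triple k r w) (l + (10 * (k + l) + 4 + n))) =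
      outVal (run O P (triple (2 * (k + l) + b.toNat) r w) n) := by
  have e1 : run O (prog2 b l P) (triple k r w) (l + (10 * (k + l) + 4 + n)) =
      Pool.Agent.RelS.SHIFT_.cs l (Pool.Agent.RelS.SHIFT_.cs 9
        (run O P (triple (2 * (k + l) + b.toNat) r w) n)) := by
    unfold prog2
    rw [Pool.Agent.RelS.SHIFT_.second, ← Pool.Agent.RelS.SHIFT_.triple_shift,
      Pool.Agent.RelV.DOUB_.second]
  constructor
  · unfold Halts at h ⊢
    rw [e1]
    unfold prog2
    rw [Pool.Agent.RelS.SHIFT_.prog_length, Pool.Agent.RelV.DOUB_.prog_length]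
    show l + (9 + P.length) ≤ (run O P (triple (2 * (k + l) + b.toNat) r w) n).pc + 9 + l
    have h6 : P.length ≤ (run O P (triple (2 * (k + l) + b.toNat) r w) n).pc := h
    omega
  · rw [e1]
    rfl

/-- Approximations from runs of different lengths. -/
theorem approx_of {O : Lang} {P : List Instr} {T : ℕ → ℕ} {d : ℕ → List Bool → ℝ}
    (h : ∀ k r w, ∃ n ≤ T (triple k r w).length, Halts O P (triple k r w) n ∧
      |outVal (run O P (triple k r w) n) - d k w| ≤ (1 / 2 : ℝ) ^ r) : Approx O P T d := by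
  intro k r w
  obtain ⟨n, hn, h1, h2⟩ := h k r w
  refine ⟨halts_mono _ _ _ _ _ h1 hn, ?_⟩
  rw [stay _ _ _ _ _ h1 hn]
  exact h2

theorem triple_length (k r : ℕ) (w : List Bool) :
    (triple k r w).length = k + r + w.length + 2 := by
  simp [triple]
  omega

/-- Linear times. -/
theorem lin_le (C : ℕ) : ∃ c : ℕ, ∀ n : ℕ, C * (n + 2) ≤ (n + 2) ^ c := by
  refine ⟨C + 1, fun n => ?_⟩
  have h1 : C ≤ (n + 2) ^ C := Nat.lt_two_pow_self.le.trans (Nat.pow_le_pow_left (by omega) C)
  rw [pow_succ]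
  exact Nat.mul_le_mul_right _ h1

/-- Quasi-polynomial times. -/
theorem quasi_le (C : ℕ) : ∃ c : ℕ, ∀ n m : ℕ, m ≤ n →
    C * (n + 2) + 40 * 2 ^ (Nat.log 2 m) ^ 2 ≤ 2 ^ (Nat.log 2 n + 2) ^ c := by
  refine ⟨C + 10, fun n m hm => ?_⟩
  obtain ⟨L, hL⟩ : ∃ L, L = Nat.log 2 n := ⟨_, rfl⟩
  have h1 : n + 2 ≤ 2 ^ (L + 2) := by
    have := Nat.lt_pow_succ_log_self (b := 2) (by norm_num) n
    have h0 : 1 ≤ 2 ^ L := Nat.one_le_two_pow
    rw [← hL, pow_succ] at this
    rw [pow_add]
    omega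
  have h2 : Nat.log 2 m ≤ L := by rw [hL]; exact Nat.log_mono_right hm
  rw [← hL]
  have h3 : C ≤ 2 ^ C := Nat.lt_two_pow_self.le
  have h4 : C * (n + 2) ≤ 2 ^ (C + (L + 2)) := by
    rw [pow_add]
    exact Nat.mul_le_mul h3 h1
  have h5 : 40 * 2 ^ (Nat.log 2 m) ^ 2 ≤ 2 ^ (6 + L ^ 2) := by
    rw [pow_add]
    exact Nat.mul_le_mul (by norm_num)
      (Nat.pow_le_pow_right (by norm_num) (Nat.pow_le_pow_left h2 2))
  have h6 : C + (L + 2) + (6 + L ^ 2) + 1 ≤ (L + 2) ^ (C + 10) := by
    have e1 : C + 1 ≤ 2 ^ (C + 1) := Nat.lt_two_pow_self.le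
    have e2 : 2 ^ (C + 1) ≤ (L + 2) ^ (C + 1) := Nat.pow_le_pow_left (by omega) _
    have e3 : (L + 2) ^ (C + 10) = (L + 2) ^ (C + 1) * (L + 2) ^ 9 := by
      rw [← pow_add]
    have e4 : (L + 2) + (6 + L ^ 2) + 2 ≤ (L + 2) ^ 9 := by
      have f1 : (L + 2) ^ 9 = (L + 2) ^ 2 * (L + 2) ^ 7 := by rw [← pow_add]
      have f2 : 2 ^ 7 ≤ (L + 2) ^ 7 := Nat.pow_le_pow_left (by omega) _
      have f3 : (L + 2) ^ 2 * 2 ^ 7 ≤ (L + 2) ^ 2 * (L + 2) ^ 7 := Nat.mul_le_mul_left _ f2
      nlinarith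
    have e5 : 1 ≤ (L + 2) ^ (C + 1) := Nat.one_le_pow _ _ (by omega)
    have e6 : 1 ≤ (L + 2) ^ 9 := Nat.one_le_pow _ _ (by omega)
    rw [e3]
    have e7 : C + 1 ≤ (L + 2) ^ (C + 1) := e1.trans e2
    nlinarith
  have h7 : ∀ X Y : ℕ, 2 ^ X + 2 ^ Y ≤ 2 ^ (X + Y + 1) := by
    intro X Y
    have g1 : 2 ^ X ≤ 2 ^ (X + Y) := Nat.pow_le_pow_right (by norm_num) (by omega)
    have g2 : 2 ^ Y ≤ 2 ^ (X + Y) := Nat.pow_le_pow_right (by norm_num) (by omega)
    rw [pow_succ]
    omega
  exact (add_le_add h4 h5).trans ((h7 _ _).trans (Nat.pow_le_pow_right (by norm_num) h6))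

end Pool.Agent.RelX
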