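import Pool.Agent.RelX.IO
import Pool.Agent.RelX.RD
import Pool.Agent.RelV.MAIN
import Pool.Agent.RelT.UPP

/-!
# The dimension in `E` is at most `a`, the dimension in `E_2` is at most `b`
-/

set_option autoImplicit false

namespace Pool.Agent.RelX

open MeasureTheory Set
open scoped ENNReal
open Pool.Agent.RelM (Lang Instr Cfg run Halts Decides NP E1 E2 outVal Approx IsDensity IsNullCover Null1
  Null2 pair triple str pre hq wq sq0 sq1 Asks qb)
open Pool.Agent.RelO (lev st IsGale IsGaleCover GaleNull1 GaleNull2)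
open Pool.Agent.RelV (Cd cde cde_surj mN mM nu)
open Pool.Agent.RelM.READ_ (prg)
open Pool.Agent.RelS (Z Rl orcV orc acc Idx Om Dep mixP gf PF Low)
open Pool.Agent.RelT (Par Hist md md_pos md_spec ix ix_str qf seto)

theorem oo_tt (Φ : Par2) (ω : Om) (u : List Bool) :
    oo Φ ω (true :: true :: u) = bitsOf Φ (hf Φ ω).2 u := Pool.Agent.RelS.ott _ _ _ _

/-- Reading a supergale. -/
theorem appr (Φ : Par2) (ω : Om) (k r : ℕ) (w : List Bool) :
    ∃ n ≤ 40 * (2 * (triple k r w).length + 4 + pad k w) + 15,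
      Halts (oo Φ ω) prg (triple k r w) n ∧
      |outVal (run (oo Φ ω) prg (triple k r w) n) - dd Φ (hf Φ ω).2 k w| ≤ (1 / 2 : ℝ) ^ r := by
  obtain ⟨h1, h2⟩ := numok Φ (hf Φ ω).2 k r w
  obtain ⟨h3, h4⟩ := readp (O := oo Φ ω) (I := triple k r w) (n := num Φ (hf Φ ω).2 k r w)
    (R := r + 1 + pad k w) (by omega)
    (fun j => by
      have e := (bits Φ (hf Φ ω).2 j k r w).1
      rw [← oo_tt Φ ω] at e
      exact e)
    (fun j => by
      have e := (bits Φ (hf Φ ω).2 j k r w).2.1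
      rw [← oo_tt Φ ω] at e
      exact e)
    (fun j => by
      have e := (bits Φ (hf Φ ω).2 j k r w).2.2
      rw [← oo_tt Φ ω] at e
      exact e)
    (T := 40 * (2 * (triple k r w).length + 4 + pad k w) + 15) (by
      refine Nat.add_le_add_right (Nat.mul_le_mul_left _ (max_le h1 ?_)) _
      rw [triple_length]
      omega)
  refine ⟨_, le_rfl, h3, ?_⟩
  rw [h4]
  exact h2

/-- The parameters of the family `b` of supergales. -/
noncomputable def Pf (Φ : Par2) (b : Bool) : ParF := if b = true then Φ.B else Φ.A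

theorem sK_eq (Φ : Par2) (b : Bool) (k : ℕ) : sK Φ (2 * k + b.toNat) = (Pf Φ b).s k := by
  unfold sK Pf
  cases b
  · have h1 : (2 * k + false.toNat) % 2 = 0 := by simp
    have h2 : (2 * k + false.toNat) / 2 = k := by simp
    rw [if_pos h1, h2]
    simp
  · have h1 : ¬ (2 * k + true.toNat) % 2 = 0 := by simp
    have h2 : (2 * k + true.toNat) / 2 = k := by
      simp only [Bool.toNat_true]
      omega
    rw [if_neg h1, h2]
    simp

/-- The supergale number `k` of the family `b` is large on a language. -/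
theorem covk {Φ : Par2} {η : ℕ → ℕ → ℝ} {b : Bool} {k : ℕ} {A : Lang}
    (hA : ∀ m : ℕ, ∃ j, m ≤ j ∧
      Real.exp (-(((Pf Φ b).a (av j) * Real.log 2 + 4 / ((av j : ℝ) + 1)) * 2 ^ (nn Φ j + j) +
        2 ^ nn Φ j)) ≤ Pw Φ η b j (pre A (2 ^ (nn Φ j + j)))) :
    ∃ N, 1 ≤ dd Φ η (2 * k + b.toNat) (pre A N) := by
  obtain ⟨K, hK⟩ : ∃ K, K = 2 * k + b.toNat := ⟨_, rfl⟩
  obtain ⟨n, hn⟩ := Pool.Agent.RelS.NN_.exp_bound 2 (K + 1) 0
  obtain ⟨v₀, hv₀⟩ := (Pf Φ b).gap k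
  obtain ⟨J, hJ⟩ := av_ge v₀
  obtain ⟨j, hjn, hlow⟩ := hA (max n J)
  have hj2 : (j + 1) * (K + j + 2) ≤ 2 ^ j := by
    have h1 := hn j ((le_max_left _ _).trans hjn)
    have h2 : (j + 1) * (K + j + 2) ≤ (K + 1) * (j + 0 + 2) ^ 2 := by
      have e1 : K + j + 2 ≤ (K + 1) * (j + 2) := by
        have : (K + 1) * (j + 2) = K * j + 2 * K + j + 2 := by ring
        have h0 : 0 ≤ K * j := Nat.zero_le _
        omega
      calc (j + 1) * (K + j + 2) ≤ (j + 2) * ((K + 1) * (j + 2)) :=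
            Nat.mul_le_mul (by omega) e1
        _ = (K + 1) * (j + 0 + 2) ^ 2 := by ring
    omega
  have hgap := hv₀ (av j) (hJ j ((le_max_right _ _).trans hjn))
  refine ⟨2 ^ (nn Φ j + j), ?_⟩
  have hjN : j < (pre A (2 ^ (nn Φ j + j))).length := by
    rw [pre_length]
    have h1 : nn Φ j + j < 2 ^ (nn Φ j + j) := Nat.lt_two_pow_self
    omega
  refine le_trans ?_ (dlow Φ η (2 * k + b.toNat) j _ hjN)
  have hb : decide ((2 * k + b.toNat) % 2 = 1) = b := by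
    cases b
    · simp
    · simp
  rw [pre_length, hb]
  have hsK : sK Φ K = (Pf Φ b).s k := by rw [hK, sK_eq]
  rw [← hK]
  rw [← hsK] at hgap
  obtain ⟨a, ha⟩ : ∃ a, a = (Pf Φ b).a (av j) := ⟨_, rfl⟩
  obtain ⟨z, hz⟩ : ∃ z : ℝ, z = (av j : ℝ) + 1 := ⟨_, rfl⟩
  rw [← ha, ← hz] at hlow hgap
  have hz1 : 1 ≤ z := by
    rw [hz]
    linarith [Nat.cast_nonneg (α := ℝ) (av j)]
  have hzj : z ≤ (j : ℝ) + 1 := by
    have : (av j : ℝ) ≤ j := by exact_mod_cast av_le j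
    rw [hz]
    linarith
  obtain ⟨L, hL⟩ : ∃ L, L = Real.log 2 := ⟨_, rfl⟩
  have hL1 : 1 / 2 ≤ L := by rw [hL]; linarith [Real.log_two_gt_d9]
  have hL2 : L ≤ 1 := by rw [hL]; linarith [Real.log_two_lt_d9]
  obtain ⟨M, hM⟩ : ∃ M : ℝ, M = 2 ^ nn Φ j := ⟨_, rfl⟩
  have hM1 : 1 ≤ M := by rw [hM]; exact one_le_pow₀ (by norm_num)
  have hN : (2 : ℝ) ^ (nn Φ j + j) = M * 2 ^ j := by rw [hM, pow_add]
  have hhalf : ∀ m : ℕ, (1 / 2 : ℝ) ^ m = Real.exp (-(m * L)) := by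
    intro m
    rw [hL, ← mul_neg, Real.exp_nat_mul, Real.exp_neg, Real.exp_log (by norm_num), one_div]
  have hpow : (2 : ℝ) ^ (sK Φ K * ((2 ^ (nn Φ j + j) : ℕ) : ℝ)) =
      Real.exp (L * (sK Φ K * (M * 2 ^ j))) := by
    rw [Real.rpow_def_of_pos (by norm_num), ← hL]
    push_cast
    rw [hN]
  rw [hN, ← hM, ← hL] at hlow
  rw [← hL] at hgap
  have hkey : 0 ≤ -(K * L) + L * (sK Φ K * (M * 2 ^ j)) +
      (-(((j + 1 : ℕ) : ℝ) * L) + -((a * L + 4 / z) * (M * 2 ^ j) + M)) := by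
    have hj3 : ((j : ℝ) + 1) * (K + j + 2) ≤ 2 ^ j := by exact_mod_cast hj2
    have hX : 0 < M * 2 ^ j := by positivity
    have h1 : 1 / z * (M * 2 ^ j) ≤ (sK Φ K * L - (a * L + 4 / z)) * (M * 2 ^ j) := by
      refine mul_le_mul_of_nonneg_right ?_ hX.le
      have e1 : 5 / z = 4 / z + 1 / z := by ring
      linarith
    have h2 : M * ((K : ℝ) + j + 2) ≤ 1 / z * (M * 2 ^ j) := by
      rw [div_mul_eq_mul_div, one_mul, le_div_iff₀ (by linarith)]
      have e1 : M * ((K : ℝ) + j + 2) * z ≤ M * ((K : ℝ) + j + 2) * ((j : ℝ) + 1) :=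
        mul_le_mul_of_nonneg_left hzj (by positivity)
      have e2 : M * (((j : ℝ) + 1) * (K + j + 2)) ≤ M * 2 ^ j :=
        mul_le_mul_of_nonneg_left hj3 (by linarith)
      linarith
    have h3 : ((K : ℝ) + (j + 1)) * L + M ≤ M * ((K : ℝ) + j + 2) := by
      have h6 : ((K : ℝ) + (j + 1)) * L ≤ ((K : ℝ) + (j + 1)) * M :=
        mul_le_mul_of_nonneg_left (hL2.trans hM1) (by positivity)
      linarith
    push_cast
    linarith
  calc (1 : ℝ) ≤ Real.exp (-(K * L) + L * (sK Φ K * (M * 2 ^ j)) +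
        (-(((j + 1 : ℕ) : ℝ) * L) + -((a * L + 4 / z) * (M * 2 ^ j) + M))) :=
        Real.one_le_exp hkey
    _ = (1 / 2 : ℝ) ^ K * (2 : ℝ) ^ (sK Φ K * ((2 ^ (nn Φ j + j) : ℕ) : ℝ)) *
        ((1 / 2 : ℝ) ^ (j + 1) * Real.exp (-((a * L + 4 / z) * (M * 2 ^ j) + M))) := by
        rw [hhalf, hpow, hhalf, ← Real.exp_add, ← Real.exp_add, ← Real.exp_add]
    _ ≤ _ := by gcongr

/-- The cover by the supergales of the family `b`. -/
theorem galecov {Φ : Par2} {ω : Om} {b : Bool} {X : Set Lang}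
    (hX : ∀ A ∈ X, ∀ k : ℕ, ∃ N, 1 ≤ dd Φ (hf Φ ω).2 (2 * k + b.toNat) (pre A N)) {s : ℝ}
    (hsa : ∃ k₀, ∀ k, k₀ ≤ k → (Pf Φ b).s k ≤ s) : ∃ l : ℕ,
      IsGaleCover s (fun k => dd Φ (hf Φ ω).2 (2 * (k + l) + b.toNat)) X := by
  obtain ⟨l, hl⟩ := hsa
  refine ⟨l, fun k => ⟨Pool.Agent.RelO.MAIN_.gale_mono ?_
    (dgale Φ (hf Φ ω).2 (2 * (k + l) + b.toNat)), ?_, ?_⟩⟩
  · rw [sK_eq]
    exact hl _ (by omega)
  · refine (dnil Φ (hf Φ ω).2 (2 * (k + l) + b.toNat)).trans ?_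
    exact pow_le_pow_of_le_one (by norm_num) (by norm_num) (by omega)
  · intro A hA
    exact hX A hA (k + l)

/-- Reading the members of one family. -/
theorem appr2 (Φ : Par2) (ω : Om) (b : Bool) (l k r : ℕ) (w : List Bool) :
    ∃ n ≤ (500 * (l + 1)) * ((triple k r w).length + 2) + 40 * pad (2 * (k + l) + b.toNat) w,
      Halts (oo Φ ω) (prog2 b l prg) (triple k r w) n ∧
      |outVal (run (oo Φ ω) (prog2 b l prg) (triple k r w) n) -
        dd Φ (hf Φ ω).2 (2 * (k + l) + b.toNat) w| ≤ (1 / 2 : ℝ) ^ r := by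
  obtain ⟨n, hn, h1, h2⟩ := appr Φ ω (2 * (k + l) + b.toNat) r w
  obtain ⟨h3, h4⟩ := halts_two h1
  refine ⟨_, ?_, h3, by rw [h4]; exact h2⟩
  have hb : b.toNat ≤ 1 := by cases b <;> simp
  rw [triple_length] at hn ⊢
  obtain ⟨p, hp⟩ : ∃ p, p = pad (2 * (k + l) + b.toNat) w := ⟨_, rfl⟩
  rw [← hp] at hn ⊢
  have h5 : 500 * (l + 1) * (k + r + w.length + 2 + 2) =
      500 * (k + r + w.length + 4) + 500 * (l * (k + r + w.length + 4)) := by ring
  have h6 : l * 4 ≤ l * (k + r + w.length + 4) := Nat.mul_le_mul_left _ (by omega)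
  omega

/-- Null covers by the supergales of the first family. -/
theorem galenull1 {Φ : Par2} {ω : Om} {X : Set Lang}
    (hX : ∀ A ∈ X, ∀ k : ℕ, ∃ N, 1 ≤ dd Φ (hf Φ ω).2 (2 * k + false.toNat) (pre A N)) {s : ℝ}
    (hsa : ∃ k₀, ∀ k, k₀ ≤ k → (Pf Φ false).s k ≤ s) : GaleNull1 s (oo Φ ω) X := by
  obtain ⟨l, hcov⟩ := galecov hX hsa
  obtain ⟨c, hc⟩ := lin_le (500 * (l + 1))
  refine ⟨_, hcov, prog2 false l prg, c, approx_of fun k r w => ?_⟩
  obtain ⟨n, hn, h⟩ := appr2 Φ ω false l k r w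
  refine ⟨n, hn.trans (le_trans ?_ (hc _)), h⟩
  have hp : pad (2 * (k + l) + false.toNat) w = 0 := by
    unfold pad
    rw [if_neg (by simp)]
  rw [hp]
  omega

/-- Null covers by the supergales of the second family. -/
theorem galenull2 {Φ : Par2} {ω : Om} {X : Set Lang}
    (hX : ∀ A ∈ X, ∀ k : ℕ, ∃ N, 1 ≤ dd Φ (hf Φ ω).2 (2 * k + true.toNat) (pre A N)) {s : ℝ}
    (hsa : ∃ k₀, ∀ k, k₀ ≤ k → (Pf Φ true).s k ≤ s) : GaleNull2 s (oo Φ ω) X := by
  obtain ⟨l, hcov⟩ := galecov hX hsa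
  obtain ⟨c, hc⟩ := quasi_le (500 * (l + 1))
  refine ⟨_, hcov, prog2 true l prg, c, approx_of fun k r w => ?_⟩
  obtain ⟨n, hn, h⟩ := appr2 Φ ω true l k r w
  refine ⟨n, hn.trans (le_trans ?_ (hc _ w.length ?_)), h⟩
  · have hp : pad (2 * (k + l) + true.toNat) w = 2 ^ Nat.log 2 w.length ^ 2 := by
      unfold pad
      rw [if_pos (by simp)]
    rw [hp]
  · rw [triple_length]
    omega

/-- If the two machines accept the same language, they do not differ. -/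
theorem no_dif {Φ : Par2} {ω : Om} {j : ℕ} {A : Lang}
    (hN : ∀ x, acc (oo Φ ω) (mN j) x ↔ A x = true)
    (hM : ∀ t ∈ Wd Φ j,
      (run (oo Φ ω) (mM j).1 (str t) (2 ^ ((mM j).2 * ((str t).length + 1)))).st 1 =
        [A (str t)])
    (hH : ∀ t ∈ Wd Φ j, run (oo Φ ω) (mM j).1 (str t) (2 ^ ((mM j).2 * ((str t).length + 1))) =
      run (ovM Φ j (hs Φ ω (j + 1)) ω) (mM j).1 (str t)
        (2 ^ ((mM j).2 * ((str t).length + 1)))) :
    ¬ Dif Φ j (hs Φ ω (j + 1)) ω := by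
  rintro ⟨-, t, ht, h⟩
  refine h ?_
  rw [← truth_iff ω ht]
  unfold Tru ansM
  rw [hN, ← hH t ht, hM t ht]
  simp

theorem upp_of (hMH : T_MHIT) : T_UPP := by
  intro Φ
  filter_upwards [ae_all_iff.2 fun e => io Φ e, hMH Φ] with ω hω hH
  obtain ⟨j₀, hj₀⟩ := hH
  have hL : ∀ {A : Lang} {P : List Instr} {b c j : ℕ}, mN j = (P, b, c) →
      (∀ x, A x = true ↔ ∃ y : List Bool, y.length ≤ (x.length + 2) ^ b ∧
        (run (oo Φ ω) P (pair x y) ((x.length + 2) ^ c)).st 1 = [true]) → Lj Φ j ω = A := by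
    intro A P b c j h1 h2
    classical
    funext x
    unfold Lj
    rw [Bool.eq_iff_iff, h2, decide_eq_true_eq, h1]
    rfl
  constructor
  · intro s hsa
    refine galenull1 ?_ (by unfold Pf; simpa using hsa)
    rintro A ⟨hA1, hA2⟩ k
    obtain ⟨P, b, c, hP⟩ := hA1
    obtain ⟨M, d, hM⟩ := hA2
    obtain ⟨e, he⟩ := cde_surj ((P, b, c), (M, d), 0, false)
    refine covk fun m => ?_
    obtain ⟨j, hj, hst, hor⟩ := hω e (max m j₀)
    have hty : ty Φ j = false := by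
      unfold ty
      rw [hst, he]
    have hmN : mN j = (P, b, c) := by unfold mN; rw [hst, he]
    have hmM : mM j = (M, d) := by unfold mM; rw [hst, he]
    have hPt : Pt Φ j = Φ.A := by
      unfold Pt
      rw [hty, if_neg (by decide)]
    have hnd : ¬ Dif Φ j (hs Φ ω (j + 1)) ω := by
      refine no_dif (A := A) ?_ ?_ (hj₀ j ((le_max_right _ _).trans hj) hty)
      · intro x
        rw [(hP x).2, hmN]
        rfl
      · intro t _
        rw [hmM]
        exact (hM (str t)).2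
    refine ⟨j, (le_max_left _ _).trans hj, ?_⟩
    have h1 := hor.resolve_left hnd
    rw [hPt, hL hmN fun x => (hP x).2, hty] at h1
    unfold Pf
    simpa using h1
  · intro s hsa
    refine galenull2 ?_ (by unfold Pf; simpa using hsa)
    rintro A ⟨P, b, c, hP⟩ k
    obtain ⟨e, he⟩ := cde_surj ((P, b, c), ([], 0), 0, true)
    refine covk fun m => ?_
    obtain ⟨j, hj, hst, hor⟩ := hω e m
    have hty : ty Φ j = true := by
      unfold ty
      rw [hst, he]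
    have hmN : mN j = (P, b, c) := by unfold mN; rw [hst, he]
    have hPt : Pt Φ j = Φ.B := by
      unfold Pt
      rw [hty, if_pos rfl]
    have hnd : ¬ Dif Φ j (hs Φ ω (j + 1)) ω := by
      rintro ⟨h1, -⟩
      rw [hty] at h1
      exact absurd h1 (by decide)
    refine ⟨j, hj, ?_⟩
    have h1 := hor.resolve_left hnd
    rw [hPt, hL hmN fun x => (hP x).2, hty] at h1
    unfold Pf
    simpa using h1

end Pool.Agent.RelX
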