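import Pool.Agent.RelX.Targets2
import Pool.Agent.RelX.UPP
import Pool.Agent.RelX.MHIT
import Pool.Agent.RelX.NONNULL
import Pool.Agent.RelX.CNT
import Pool.Agent.RelX.LOW
import Pool.Agent.RelX.ODD
import Pool.Agent.RelX.DENT
import Pool.Agent.RelX.LINK
import Pool.Agent.RelX.PARO

/-!
# All types
-/

set_option autoImplicit false

namespace Pool.Agent.RelX

open MeasureTheory Set
open scoped ENNReal
open Pool.Agent.RelM (Lang Instr NP E1 E2 Approx IsNullCover Null1 Null2 str)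
open Pool.Agent.RelO (GaleNull1 GaleNull2 IsGaleCover)
open Pool.Agent.RelS (Rl Om)

/-- Null covers of a class are null covers of its subclasses. -/
theorem null2_sub {O : Lang} {X Y : Set Lang} (h : X ⊆ Y) (hY : Null2 O Y) : Null2 O X := by
  obtain ⟨d, hd, hP⟩ := hY
  exact ⟨d, fun k => ⟨(hd k).1, (hd k).2.1, fun A hA => (hd k).2.2 A (h hA)⟩, hP⟩

/-- Parameters for a dimension `a` and measure zero. -/
theorem par_null (hC : T_PARC) {a : ℝ} (h0 : 0 ≤ a) (h1 : a ≤ 1) : ∃ P : ParF, P.ai = a ∧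
    (∀ s, a < s → ∃ k₀, ∀ k, k₀ ≤ k → P.s k ≤ s) ∧ ∃ k₀, ∀ k, k₀ ≤ k → P.s k ≤ 1 := by
  rcases h1.eq_or_lt with h | h
  · obtain ⟨P, hP1, hP2⟩ := paro
    refine ⟨P, by rw [hP1, h], fun s hs => ⟨0, fun k _ => ?_⟩, 0, fun k _ => (hP2 k).le⟩
    rw [hP2 k]
    linarith
  · obtain ⟨P, hP1, hP2⟩ := hC a h0 h1
    have key : ∀ s, a < s → ∃ k₀, ∀ k, k₀ ≤ k → P.s k ≤ s := by
      intro s hs
      obtain ⟨n, hn⟩ := exists_nat_one_div_lt (show (0 : ℝ) < s - a by linarith)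
      refine ⟨n, fun k hk => ?_⟩
      rw [hP2 k]
      have h3 : 1 / ((k : ℝ) + 1) ≤ 1 / ((n : ℝ) + 1) := by
        apply one_div_le_one_div_of_le (by positivity)
        have : (n : ℝ) ≤ k := by exact_mod_cast hk
        linarith
      linarith
    exact ⟨P, hP1, key, key 1 h⟩

theorem low : T_LOW := low_of (nonnull cnt) (nonnullo bloc) fast1 fast2

theorem upp : T_UPP := upp_of mhit

theorem fin_of (hC : T_PARC) (hF : T_PARF) (hM2 : T_MEAS2) (hPP : T_PP) : T_FIN := by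
  intro a b p q a0 a1 b0 b1 hpa hqb hpq
  by_cases hp : p
  · obtain rfl := hpa hp
    obtain rfl := hqb (hpq hp)
    obtain ⟨O, h1, h2, h3, h4⟩ := hPP
    refine ⟨O, h3, fun s hs h => h1 ((link O _).1.1 ((gmono s 1 hs.le O _).1 h)),
      iff_of_true h1 hp, h4, fun s hs h => h2 ((link O _).2.1 ((gmono s 1 hs.le O _).2 h)),
      iff_of_true h2 (hpq hp), fun h => (h (hpq hp)).elim⟩
  · obtain ⟨A, hA1, hA2, hA3⟩ := par_null hC a0 a1
    by_cases hq : q
    · obtain rfl := hqb hq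
      obtain ⟨B, hB1, hB2, hB3⟩ := hF
      let Φ : Par2 := ⟨A, B⟩
      obtain ⟨ω, ⟨h1, h2⟩, ⟨h3, h4⟩, h5⟩ := ((upp Φ).and ((low Φ).and (hM2 Φ hB2))).exists
      refine ⟨oo Φ ω, fun s hs => h1 s (hA2 s hs), fun s hs => h3 s (by rw [← hA1] at hs; exact hs),
        iff_of_false (fun h => h ((link _ _).1.1 (h1 1 hA3))) hp, fun s hs => h2 s ?_,
        fun s hs => h4 s (by rw [← hB1] at hs; exact hs), iff_of_true h5 hq, fun h => (h hq).elim⟩
      obtain ⟨n, hn⟩ := exists_nat_one_div_lt (show (0 : ℝ) < s - 1 by linarith)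
      refine ⟨n, fun k hk => ?_⟩
      show B.s k ≤ s
      rw [hB3 k]
      have h3 : 1 / ((k : ℝ) + 1) ≤ 1 / ((n : ℝ) + 1) := by
        apply one_div_le_one_div_of_le (by positivity)
        have : (n : ℝ) ≤ k := by exact_mod_cast hk
        linarith
      linarith
    · obtain ⟨B, hB1, hB2, hB3⟩ := par_null hC b0 b1
      let Φ : Par2 := ⟨A, B⟩
      obtain ⟨ω, ⟨h1, h2⟩, ⟨h3, h4⟩⟩ := ((upp Φ).and (low Φ)).exists
      have h5 : Null2 (oo Φ ω) (NP (oo Φ ω)) := (link _ _).2.1 (h2 1 hB3)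
      refine ⟨oo Φ ω, fun s hs => h1 s (hA2 s hs), fun s hs => h3 s (by rw [← hA1] at hs; exact hs),
        iff_of_false (fun h => h ((link _ _).1.1 (h1 1 hA3))) hp, fun s hs => h2 s (hB2 s hs),
        fun s hs => h4 s (by rw [← hB1] at hs; exact hs),
        iff_of_false (fun h => h (null2_sub inter_subset_left h5)) hq, fun _ => h5⟩

end Pool.Agent.RelX
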