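import Pool.Agent.RelX.WINA

/-!
# The true values
-/

set_option autoImplicit false

namespace Pool.Agent.RelX

open MeasureTheory Set
open scoped ENNReal
open Pool.Agent.RelM (Lang Instr Cfg step run Halts triple outVal Approx str pre)
open Pool.Agent.RelO (lev IsGale IsGaleCover levmono levfin)
open Pool.Agent.RelS (Z Rl Idx Om Dep meas_of_dep orcV)
open Pool.Agent.RelT (Cond prc wgt GG)
open WINA_

section
variable (Φ : Par2) (κ : ℕ) (Pr : List Instr) (c q j : ℕ)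

/-- The true value of run `n`. -/
noncomputable def tv (n : ℕ) (ω : Om) : ℝ :=
  |outVal (run (oo Φ ω) Pr (ip q j (Rl (zo Φ ω) κ) n) (TT c q j n))|

/-- The true process. -/
noncomputable def pt : ℕ → Om → ℝ
  | 0, ω => tv Φ κ Pr c q j 0 ω
  | i + 1, ω => tv Φ κ Pr c q j (rn i (Rl (zo Φ ω) κ (str (j + i)))) ω

/-- The event that the gambler has won at time `T`. -/
def Tr (s : ℝ) (T : ℕ) : Set Om :=
  {ω | tv Φ κ Pr c q j 0 ω ≤ 2 * (1 / 2 : ℝ) ^ (2 * q * j) ∧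
    (∀ i < T, tv Φ κ Pr c q j (rn i false) ω + tv Φ κ Pr c q j (rn i true) ω ≤
      (2 : ℝ) ^ s * (pt Φ κ Pr c q j i ω + ee q j i)) ∧
    1 / 2 ≤ pt Φ κ Pr c q j T ω}

end

namespace TRUE_

theorem gale_step {s : ℝ} {q : ℕ} (hq : s ≤ q) {d : List Bool → ℝ} (hd : IsGale s d)
    (w : List Bool) (b : Bool) : d (w ++ [b]) ≤ 2 ^ q * d w := by
  have h1 := hd.le w
  have h2 := hd.nonneg (w ++ [false])
  have h3 := hd.nonneg (w ++ [true])
  have h4 : (2 : ℝ) ^ s ≤ 2 ^ q := by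
    rw [← Real.rpow_natCast]
    exact Real.rpow_le_rpow_of_exponent_le (by norm_num) hq
  have h5 : (2 : ℝ) ^ s * d w ≤ 2 ^ q * d w := mul_le_mul_of_nonneg_right h4 (hd.nonneg w)
  cases b <;> linarith

theorem gale_pre {s : ℝ} {q : ℕ} (hq : s ≤ q) {d : List Bool → ℝ} (hd : IsGale s d) (A : Lang)
    (n : ℕ) : d (pre A n) ≤ (2 ^ q) ^ n * d [] := by
  induction n with
  | zero => simp [pre]
  | succ n ih =>
    rw [pre_succ]
    have := gale_step hq hd (pre A n) (A (str n))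
    calc d (pre A n ++ [A (str n)]) ≤ 2 ^ q * d (pre A n) := this
      _ ≤ 2 ^ q * ((2 ^ q) ^ n * d []) := by gcongr
      _ = _ := by ring

theorem val_close {Φ : Par2} {κ : ℕ} {Pr : List Instr} {c q j : ℕ} {ω : Om} {s : ℝ}
    {d : ℕ → List Bool → ℝ} (hd : ∀ k, IsGale s (d k))
    (hA : Approx (oo Φ ω) Pr (fun l => (l + 2) ^ c) d) (n : ℕ) :
    |tv Φ κ Pr c q j n ω - d (3 * q * j) (pre (Rl (zo Φ ω) κ) (tt j n) ++ ex1 n)| ≤
      (1 / 2 : ℝ) ^ rr q j n := by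
  have h3 := (hA (3 * q * j) (rr q j n) (pre (Rl (zo Φ ω) κ) (tt j n) ++ ex1 n)).2
  have hT : ((triple (3 * q * j) (rr q j n) (pre (Rl (zo Φ ω) κ) (tt j n) ++ ex1 n)).length + 2)
      ^ c = TT c q j n := by
    have := ip_length q j (Rl (zo Φ ω) κ) n
    unfold ip at this
    rw [this]
    rfl
  simp only at h3
  rw [hT] at h3
  have h4 : 0 ≤ d (3 * q * j) (pre (Rl (zo Φ ω) κ) (tt j n) ++ ex1 n) := (hd _).nonneg _
  unfold tv
  have h5 := abs_abs_sub_abs_le (outVal (run (oo Φ ω) Pr (ip q j (Rl (zo Φ ω) κ) n)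
    (TT c q j n))) (d (3 * q * j) (pre (Rl (zo Φ ω) κ) (tt j n) ++ ex1 n))
  rw [abs_of_nonneg h4] at h5
  exact h5.trans h3

end TRUE_

open TRUE_

/-- A language that is covered is won. -/
theorem cov_sub (Φ : Par2) (κ : ℕ) (Pr : List Instr) (c : ℕ) {s : ℝ} {q : ℕ}
    (hq : |s| + 1 ≤ q) (j : ℕ) (hj : 1 ≤ j) :
    {ω | ∃ d : ℕ → List Bool → ℝ, IsGaleCover s d {Rl (zo Φ ω) κ} ∧
      Approx (oo Φ ω) Pr (fun l => (l + 2) ^ c) d} ⊆ ⋃ T, Tr Φ κ Pr c q j s T := by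
  rintro ω ⟨d, hN, hA⟩
  rw [Set.mem_iUnion]
  have hsq : s ≤ q := by linarith [le_abs_self s]
  have hq1 : 1 ≤ q := by
    have : (1 : ℝ) ≤ q := by linarith [abs_nonneg s]
    exact_mod_cast this
  have hd : ∀ k, IsGale s (d k) := fun k => (hN k).1
  obtain ⟨R, hR⟩ : ∃ R : Lang, R = Rl (zo Φ ω) κ := ⟨_, rfl⟩
  have hY : |tv Φ κ Pr c q j 0 ω - d (3 * q * j) (pre R j)| ≤
      (1 / 2 : ℝ) ^ (2 * q * j + 1) := by
    have h1 := val_close (κ := κ) (q := q) (j := j) hd hA 0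
    have h2 : ex1 0 = [] := rfl
    have h3 : rr q j 0 = 2 * q * j + 1 := rfl
    rw [h2, h3, List.append_nil, tt_zero, ← hR] at h1
    exact h1
  have hX : ∀ i b, |tv Φ κ Pr c q j (rn i b) ω - d (3 * q * j) (pre R (j + i) ++ [b])|
      ≤ (1 / 2 : ℝ) ^ (q * (i + 1) + 2 * q * j + 1) := by
    intro i b
    have h1 := val_close (κ := κ) (q := q) (j := j) hd hA (rn i b)
    rw [ex1_rn, rr_rn, tt_rn, ← hR] at h1
    exact h1
  have hproc : ∀ i, |pt Φ κ Pr c q j i ω - d (3 * q * j) (pre R (j + i))| ≤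
      (1 / 2 : ℝ) ^ (q * i + 2 * q * j + 1) := by
    intro i
    cases i with
    | zero =>
      rw [mul_zero, zero_add]
      exact hY
    | succ i =>
      have h1 := hX i (R (str (j + i)))
      have h2 : pre R (j + (i + 1)) = pre R (j + i) ++ [R (str (j + i))] := by
        rw [← add_assoc, pre_succ]
      rw [h2]
      have h3 : pt Φ κ Pr c q j (i + 1) ω = tv Φ κ Pr c q j (rn i (R (str (j + i)))) ω := by
        rw [hR]
        rfl
      rw [h3]
      exact h1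
  have hd0 : d (3 * q * j) [] ≤ (1 / 2 : ℝ) ^ (3 * q * j) := (hN (3 * q * j)).2.1
  have hdn : ∀ n ≤ j, d (3 * q * j) (pre R n) ≤ (1 / 2 : ℝ) ^ (2 * q * j) := by
    intro n hn
    have h2q : (1 : ℝ) ≤ 2 ^ q := one_le_pow₀ (by norm_num)
    calc d (3 * q * j) (pre R n) ≤ (2 ^ q) ^ n * d (3 * q * j) [] := gale_pre hsq (hd _) R n
      _ ≤ (2 ^ q) ^ n * (1 / 2 : ℝ) ^ (3 * q * j) := by gcongr
      _ ≤ (2 ^ q) ^ j * (1 / 2 : ℝ) ^ (3 * q * j) := by gcongr
      _ = (1 / 2 : ℝ) ^ (2 * q * j) := by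
          rw [← pow_mul, show 3 * q * j = q * j + 2 * q * j by ring, pow_add, ← mul_assoc,
            ← mul_pow]
          norm_num
  have c1 : tv Φ κ Pr c q j 0 ω ≤ 2 * (1 / 2 : ℝ) ^ (2 * q * j) := by
    have h1 := (abs_le.mp hY).2
    have h2 := hdn j le_rfl
    have h3 : (1 / 2 : ℝ) ^ (2 * q * j + 1) ≤ (1 / 2 : ℝ) ^ (2 * q * j) :=
      pow_le_pow_of_le_one (by norm_num) (by norm_num) (by omega)
    linarith
  have c2 : ∀ i, tv Φ κ Pr c q j (rn i false) ω + tv Φ κ Pr c q j (rn i true) ω ≤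
      (2 : ℝ) ^ s * (pt Φ κ Pr c q j i ω + ee q j i) := by
    intro i
    have h1 := (abs_le.mp (hX i false)).2
    have h2 := (abs_le.mp (hX i true)).2
    have h3 := (abs_le.mp (hproc i)).1
    have h4 := (hd (3 * q * j)).le (pre R (j + i))
    have h5 : (1 / 2 : ℝ) ^ (q * (i + 1) + 2 * q * j + 1) = (1 / 2) * ((1 / 2 : ℝ) ^ q *
        ee q j i) := by
      unfold ee
      rw [show q * (i + 1) + 2 * q * j + 1 = 1 + (q + (q * i + 2 * q * j)) by ring, pow_add,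
        pow_add, pow_one]
    have h6 : (1 / 2 : ℝ) ^ (q * i + 2 * q * j + 1) = (1 / 2) * ee q j i := by
      unfold ee
      rw [pow_succ]
      ring
    have he : 0 ≤ ee q j i := by unfold ee; positivity
    have h7 : (1 / 2 : ℝ) ^ q ≤ (2 : ℝ) ^ s * (1 / 2) := by
      have e1 : (1 / 2 : ℝ) ^ q = (2 : ℝ) ^ (-(q : ℝ)) := by
        rw [Real.rpow_neg (by norm_num), Real.rpow_natCast, one_div, inv_pow]
      have e2 : (2 : ℝ) ^ s * (1 / 2) = (2 : ℝ) ^ (s - 1) := by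
        rw [Real.rpow_sub (by norm_num), Real.rpow_one]
        ring
      rw [e1, e2]
      refine Real.rpow_le_rpow_of_exponent_le (by norm_num) ?_
      linarith [neg_abs_le s]
    have h8 : (0 : ℝ) < (2 : ℝ) ^ s := by positivity
    rw [h5] at h1 h2
    rw [h6] at h3
    have h9 : d (3 * q * j) (pre R (j + i)) ≤ pt Φ κ Pr c q j i ω + (1 / 2) * ee q j i := by
      linarith
    have h10 := mul_le_mul_of_nonneg_left h9 h8.le
    have h11 := mul_le_mul_of_nonneg_right h7 he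
    linarith
  obtain ⟨n, hn⟩ := (hN (3 * q * j)).2.2 R (by rw [hR]; rfl)
  have hlt : j < n := by
    by_contra hle
    have h1 := hdn n (by omega)
    have h2 : (1 / 2 : ℝ) ^ (2 * q * j) ≤ (1 / 2 : ℝ) ^ 1 := by
      refine pow_le_pow_of_le_one (by norm_num) (by norm_num) ?_
      have : 1 ≤ 2 * q * j := by
        have := Nat.mul_le_mul (show 1 ≤ 2 * q by omega) hj
        omega
      exact this
    norm_num at h2
    norm_num at h1
    linarith
  obtain ⟨i, rfl⟩ := Nat.exists_eq_add_of_lt hlt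
  refine ⟨i + 1, c1, fun i' _ => c2 i', ?_⟩
  have h3 := (abs_le.mp (hproc (i + 1))).1
  rw [show j + (i + 1) = j + i + 1 by omega] at h3
  have h4 : (1 / 2 : ℝ) ^ (q * (i + 1) + 2 * q * j + 1) ≤ (1 / 2 : ℝ) ^ 1 :=
    pow_le_pow_of_le_one (by norm_num) (by norm_num) (by omega)
  rw [pow_one] at h4
  linarith

/-- With true advice the bits are true. -/
theorem bit_true {Φ : Par2} {α : Adv} {ω : Om} {l : ℕ} (hAG : AG Φ α ω l) (κ : ℕ) {i : ℕ}
    (hi : lev κ (str i) ≤ l) : RA Φ α κ ω (str i) = Rl (zo Φ ω) κ (str i) := by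
  have h1 : oc Φ (hfA Φ α ω).1 κ (lev κ (str i)) = oc Φ (hf Φ ω).1 κ (lev κ (str i)) := by
    refine oc_congr ?_
    obtain ⟨v, hv⟩ : ∃ v, jj Φ (lev κ (str i)) = v := ⟨_, rfl⟩
    rw [hv]
    cases v with
    | zero => rfl
    | succ J =>
      have h2 : nn Φ J ≤ l := ((jjspec Φ (lev κ (str i))).2 J (by omega)).trans hi
      show (hA Φ α ω (J + 1)).1 (J + 1) = (hs Φ ω (J + 1)).1 (J + 1)
      rw [hA_true1 hAG h2]
  unfold RA Rl
  rw [decide_eq_decide]
  refine exists_congr fun y => and_congr_right fun hy => ?_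
  show ω (κ, str i, y, oc Φ (hfA Φ α ω).1 κ (lev κ (str i))) = true ↔
    ω (κ, str i, y, oc Φ (hf Φ ω).1 κ (lev κ (str i))) = true
  rw [h1]

/-- The gambler with true advice and the true description wins. -/
theorem tr_sub (bloc : T_BLOC) {Φ : Par2} {κ : ℕ} (hκ : κ % 2 = 1) {Pr : List Instr}
    {c q j : ℕ} (h0 : ∀ t, j ≤ t → nn Φ 0 ≤ lev κ (str t))
    (hlen : ∀ n, Ln q j n + TT c q j n < 2 ^ lev κ (str (tt j n)))
    {s : ℝ} {T : ℕ} {ω : Om} (hω : ω ∈ Tr Φ κ Pr c q j s T) {α : Adv}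
    (hAG : AG Φ α ω (lev κ (str (j + T)))) :
    ∃ S : List (ℕ × ℕ), (∀ e ∈ S, e.1 < 2 * T + 1 ∧ e.2 < TT c q j e.1) ∧
      TK Φ α κ Pr (tt j) (II Φ α κ q j) S ω ∧ ω ∈ Wn Φ α κ Pr c q j S s T := by
  have hpre : ∀ n < 2 * T + 1, II Φ α κ q j n ω = ip q j (Rl (zo Φ ω) κ) n := by
    intro n hn
    unfold II ip
    have h1 : pre (RA Φ α κ ω) (tt j n) = pre (Rl (zo Φ ω) κ) (tt j n) := by
      unfold pre
      refine List.map_congr_left fun i hi => ?_
      rw [List.mem_range] at hi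
      refine bit_true hAG κ (lev_mono κ ?_)
      unfold tt at hi
      omega
    rw [h1]
  have hcut : ∀ n < 2 * T + 1, Cut Φ α κ (tt j) (II Φ α κ q j) (oo Φ ω) (TT c q j) ω n := by
    intro n hn F qq hqq hne
    have hlq : qq.length < 2 ^ lev κ (str (tt j n)) := by
      have h1 : (II Φ α κ q j n ω).length = Ln q j n := ip_length _ _ _ _
      rw [h1] at hqq
      exact hqq.trans_lt (hlen n)
    by_cases hF : qq ∈ F
    · left
      refine ⟨hF, ?_⟩
      unfold oA at hne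
      rw [decide_eq_true hF, Bool.or_true] at hne
      cases h : oo Φ ω qq
      · rfl
      · rw [h] at hne
        exact absurd rfl hne
    · right
      unfold oA at hne
      rw [decide_eq_false hF, Bool.or_false] at hne
      obtain ⟨κ', x', y', h1, h2, h3, h4⟩ := cutA bloc (t := tt j n) hAG hκ
        (h0 _ (tt_ge j n)) (lev_mono κ (by unfold tt; omega)) hlq fun h => hne h.symm
      exact ⟨hF, h4, κ', x', y', h1, h2, h3⟩
  obtain ⟨S, hS1, hS2, _, hS4⟩ := ex_desc (Pr := Pr) hcut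
  refine ⟨S, hS1, hS2, ?_⟩
  have hval : ∀ n < 2 * T + 1, vlw Φ α κ Pr c q j S n ω = tv Φ κ Pr c q j n ω := by
    intro n hn
    unfold vlw tv
    rw [← hS4 n hn (TT c q j n) le_rfl, hpre n hn]
  have hprc : ∀ i ≤ T, prc (bA Φ α κ j) (XX Φ α κ Pr c q j S) (YY Φ α κ Pr c q j S) i ω =
      pt Φ κ Pr c q j i ω := by
    intro i hi
    cases i with
    | zero => exact hval 0 (by omega)
    | succ i =>
      show XX Φ α κ Pr c q j S i (bA Φ α κ j i ω) ω = _
      have h1 : bA Φ α κ j i ω = Rl (zo Φ ω) κ (str (j + i)) :=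
        bit_true hAG κ (lev_mono κ (by omega))
      rw [h1]
      refine hval _ ?_
      unfold rn
      split_ifs <;> omega
  obtain ⟨t1, t2, t3⟩ := hω
  refine ⟨⟨?_, fun i hi => ?_⟩, ?_⟩
  · show vlw Φ α κ Pr c q j S 0 ω ≤ _
    rw [hval 0 (by omega)]
    exact t1
  · show vlw Φ α κ Pr c q j S (rn i false) ω + vlw Φ α κ Pr c q j S (rn i true) ω ≤ _
    rw [hval _ (by show 2 * i + 1 < 2 * T + 1; omega),
      hval _ (by show 2 * i + 2 < 2 * T + 1; omega), hprc i (by omega)]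
    exact t2 i hi
  · show 1 / 2 ≤ prc _ _ _ T ω
    rw [hprc T le_rfl]
    exact t3

end Pool.Agent.RelX
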