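import Pool.Agent.RelX.Targets

/-!
# Measure one, and the final theorem

The remaining targets of RelX.
-/

set_option autoImplicit false

namespace Pool.Agent.RelX

open MeasureTheory Set
open scoped ENNReal
open Pool.Agent.RelM (Lang Instr NP E1 E2 Approx IsNullCover Null1 Null2 str)
open Pool.Agent.RelO (GaleNull1 GaleNull2)
open Pool.Agent.RelS (Rl Om)

/-- All hidden bits have the probability one half. -/
def Fr (P : ParF) : Prop := ∀ v κ c i, i < P.K → P.lam v i * P.mul κ c = Real.log 2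

/-- Constant parameters (job PARC). PROOF. From Pool.Agent.RelT.par a (see RelT/PAR.lean) with
`lam v i := P.lam i`, `a v := a`, `ai := a`, `s k := a + 1 / (k + 1)`; `gap` because
`5 / (v + 1) ≤ Real.log 2 / (k + 1)` for all large `v`. -/
def T_PARC : Prop := ∀ a : ℝ, 0 ≤ a → a ≤ 1 → ∃ P : ParF, P.ai = a ∧
  ∀ k : ℕ, P.s k = a + 1 / ((k : ℝ) + 1)

/-- Free parameters (job PARC). PROOF. `K = 1`, `lam v i = Real.log 2`, `mul = 1`, `dm = 1`,
`B = 1`, `pv = 1`, `a v = ai = 1`, `s k = 1 + 1 / (k + 1)`; `cov` because a binary entropy is at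
most `Real.log 2`, `hid` because `gf (Real.log 2) = Real.binEntropy (1 / 2) = Real.log 2`. -/
def T_PARF : Prop := ∃ P : ParF, P.ai = 1 ∧ Fr P ∧ ∀ k : ℕ, P.s k = 1 + 1 / ((k : ℝ) + 1)

/-- Parameters for dimension one and measure zero (job PARO). PROOF. Let
`ε v = min 1 (Real.sqrt (2560 / (v + 1)))`, `K = 2`, `lam v 0 = Real.log 2`,
`lam v 1 = (1 + ε v) * Real.log 2` (and anything nonnegative for other `i`), `mul = 1`, `dm = 1`,
`B = 2`, `pv = 1 / 2`, `a v = (Real.log 2 - ε v ^ 2 / 512) / Real.log 2`, `ai = 1`, `s k = 1`.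
`cov`: by Pool.Agent.RelS.dilate (STAR.lean; its hypothesis is Pool.Agent.RelS.star, see the proof
of Pool.Agent.RelS.low_bound) there is `u ≥ 0` with `binEntropy (PF ..) ≤ gf (lam v i * u)`; so it
is enough that `(gf x + gf ((1 + ε) * x)) / 2 ≤ Real.log 2 - ε ^ 2 / 512` for `x ≥ 0` and
`0 ≤ ε ≤ 1`. Put `p = exp (-x)`, `q = exp (-(1 + ε) x) = p ^ (1 + ε)`; `binEntropy p ≤ Real.log 2 -
2 (p - 1/2)^2` (derivative of order two at most `-4`). If `|p - 1/2| ≥ 1/4`, then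
`binEntropy p ≤ Real.log 2 - 1/8` and `binEntropy q ≤ Real.log 2`, enough. Otherwise
`1/4 ≤ p ≤ 3/4` and `p - q = p (1 - p ^ ε) ≥ (1/4) (1 - (3/4) ^ ε) ≥ (1/4) (ε / 4)` (convexity of
`t ↦ (3/4) ^ t` on `[0, 1]`), so `(p-1/2)^2 + (q-1/2)^2 ≥ (p - q)^2 / 2 ≥ ε^2 / 512`. `hid`:
`gf` is continuous, `gf (Real.log 2) = Real.log 2` and `ε v → 0`. `gap`: for `v + 1 ≥ 2560` one has
`ε v ^ 2 / 512 = 5 / (v + 1)`. -/
def T_PARO : Prop := ∃ P : ParF, P.ai = 1 ∧ ∀ k : ℕ, P.s k = 1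

/-- The hidden languages of free even families have no null cover (job MEAS2). PROOF. Adapt
Pool.Agent.RelV.NONNULLD (RelV/NONNULLD.lean): `rt Φ κ t ω = 1 / 2` if `B` is free. -/
def T_NONNULLD : Prop := ∀ (Φ : Par2) (κ : ℕ) (Pr : List Instr) (T : ℕ → ℕ),
  Fr Φ.B → κ % 2 = 0 → Fast κ T → ∀ᵐ ω ∂(coin Φ), ¬ ∃ d : ℕ → List Bool → ℝ,
    IsNullCover d {Rl (zo Φ ω) κ} ∧ Approx (oo Φ ω) Pr T d

/-- Measure in `E_2` (job MEAS2). PROOF. As in RelV/LOW.lean, from T_NONNULLD and T_FAST2. -/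
def T_MEAS2 : Prop := ∀ Φ : Par2, Fr Φ.B → ∀ᵐ ω ∂(coin Φ),
  ¬ Null2 (oo Φ ω) (NP (oo Φ ω) ∩ E2 (oo Φ ω))

/-- An oracle relative to which neither measure is zero (job PP). PROOF. RelV with `oA = true` and
free parameters `A = B` (`K = 1`, `lam = Real.log 2`, `mul = 1`, `dm = 1`, `B = 1`, `a = 1`) : the
option of all pairs is `0` (even families) or `1` (odd families), both with intensity
`Real.log 2`, so `rt = 1 / 2` for all families; then RelV/NONNULLD.lean for even and odd families,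
and RelV/LOW.lean; the last two parts are RelV/UPP.lean (see RelV/MAIN.lean). -/
def T_PP : Prop := ∃ O : Lang, ¬ Null1 O (NP O ∩ E1 O) ∧ ¬ Null2 O (NP O ∩ E2 O) ∧
  (∀ s : ℝ, 1 < s → GaleNull1 s O (NP O ∩ E1 O)) ∧ (∀ s : ℝ, 1 < s → GaleNull2 s O (NP O))

/-- A null cover by `1`-supergales is a null cover (job LINK). -/
def T_LINK : Prop := ∀ (O : Lang) (X : Set Lang),
  (GaleNull1 1 O X ↔ Null1 O X) ∧ (GaleNull2 1 O X ↔ Null2 O X)

/-- The final theorem (job FIN): all types. `p` is not null in `E`, `q` is not null in `E_2`. -/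
def T_FIN : Prop := ∀ (a b : ℝ) (p q : Prop), 0 ≤ a → a ≤ 1 → 0 ≤ b → b ≤ 1 →
  (p → a = 1) → (q → b = 1) → (p → q) → ∃ O : Lang,
  (∀ s : ℝ, a < s → GaleNull1 s O (NP O ∩ E1 O)) ∧
  (∀ s : ℝ, s < a → ¬ GaleNull1 s O (NP O ∩ E1 O)) ∧
  (¬ Null1 O (NP O ∩ E1 O) ↔ p) ∧
  (∀ s : ℝ, b < s → GaleNull2 s O (NP O)) ∧
  (∀ s : ℝ, s < b → ¬ GaleNull2 s O (NP O ∩ E2 O)) ∧
  (¬ Null2 O (NP O ∩ E2 O) ↔ q) ∧ (¬ q → Null2 O (NP O))

end Pool.Agent.RelX
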