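import Pool.Agent.RelX.TRUE

/-!
# The union over advice and descriptions
-/

set_option autoImplicit false

namespace Pool.Agent.RelX

open MeasureTheory Set
open scoped ENNReal
open Pool.Agent.RelM (Lang Instr Cfg step run Halts triple outVal Approx str pre)
open Pool.Agent.RelO (lev IsGale IsGaleCover levmono levfin)
open Pool.Agent.RelS (Z Rl Idx Om Dep meas_of_dep orcV)
open Pool.Agent.RelT (Cond prc wgt GG)
open WINA_

/-- The possible entries of descriptions. -/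
def EE (c q j T : ℕ) : Finset (ℕ × ℕ) :=
  ((Finset.range (2 * T + 1)).sigma fun n => Finset.range (TT c q j n)).image
    fun p => (p.1, p.2)

theorem mem_EE {c q j T : ℕ} {e : ℕ × ℕ} :
    e ∈ EE c q j T ↔ e.1 < 2 * T + 1 ∧ e.2 < TT c q j e.1 := by
  unfold EE
  simp only [Finset.mem_image, Finset.mem_sigma, Finset.mem_range]
  constructor
  · rintro ⟨⟨a, b⟩, ⟨h1, h2⟩, rfl⟩
    exact ⟨h1, h2⟩
  · rintro ⟨h1, h2⟩
    exact ⟨⟨e.1, e.2⟩, ⟨h1, h2⟩, rfl⟩

theorem sum_EE {M : Type} [AddCommMonoid M] (c q j T : ℕ) (f : ℕ × ℕ → M) :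
    ∑ e ∈ EE c q j T, f e =
      ∑ n ∈ Finset.range (2 * T + 1), ∑ s ∈ Finset.range (TT c q j n), f (n, s) := by
  unfold EE
  rw [Finset.sum_image, Finset.sum_sigma]
  rintro ⟨a, b⟩ _ ⟨a', b'⟩ _ h
  simp only [Prod.mk.injEq] at h
  obtain ⟨rfl, rfl⟩ := h
  rfl

theorem card_EE (c q j T : ℕ) :
    (EE c q j T).card = ∑ n ∈ Finset.range (2 * T + 1), TT c q j n := by
  have h1 := sum_EE c q j T fun _ => (1 : ℕ)
  simp only [Finset.sum_const, smul_eq_mul, mul_one, Finset.card_range] at h1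
  exact h1

/-- The probability that the gambler has won at time `T`. -/
theorem tr_bound (bloc : T_BLOC) {Φ : Par2} {κ : ℕ} (hκ : κ % 2 = 1) {Pr : List Instr}
    {c q j : ℕ} (h0 : ∀ t, j ≤ t → nn Φ 0 ≤ lev κ (str t))
    (hlen : ∀ n, Ln q j n + TT c q j n < 2 ^ lev κ (str (tt j n)))
    {s : ℝ} {T : ℕ} {W : ℝ≥0∞}
    (hW : ∀ (α : Adv) (S : List (ℕ × ℕ)), GdA Φ α → coin Φ (Wn Φ α κ Pr c q j S s T) ≤ W)
    {A : Finset Adv} (hA1 : ∀ α ∈ A, GdA Φ α)
    (hA2 : ∀ ω, ∃ α ∈ A, AG Φ α ω (lev κ (str (j + T)))) (h : ℕ) :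
    coin Φ (Tr Φ κ Pr c q j s T) ≤ A.card *
      ((((h + 1) * ((EE c q j T).card + 1) ^ h : ℕ) : ℝ≥0∞) * W +
        (∑ e ∈ EE c q j T, eps Φ κ (tt j) e) ^ (h + 1)) := by
  obtain ⟨E, hE⟩ : ∃ E, E = EE c q j T := ⟨_, rfl⟩
  rw [← hE]
  have hsub : Tr Φ κ Pr c q j s T ⊆ ⋃ α ∈ A,
      ((⋃ h' ∈ Finset.range (h + 1), ⋃ S ∈ lists E h', Wn Φ α κ Pr c q j S s T) ∪
        ⋃ S ∈ lists E (h + 1), {ω | TK Φ α κ Pr (tt j) (II Φ α κ q j) S ω}) := by
    intro ω hω
    obtain ⟨α, hα, hAG⟩ := hA2 ω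
    obtain ⟨S, hS1, hS2, hS3⟩ := tr_sub bloc hκ h0 hlen hω hAG
    have hSE : ∀ e ∈ S, e ∈ E := fun e he => by
      rw [hE]
      exact mem_EE.2 (hS1 e he)
    simp only [Set.mem_iUnion]
    refine ⟨α, hα, ?_⟩
    rcases Nat.lt_or_ge h S.length with h1 | h1
    · right
      simp only [Set.mem_iUnion]
      refine ⟨S.drop (S.length - (h + 1)), mem_lists.2 ⟨?_, fun e he => ?_⟩, tk_drop hS2 _⟩
      · rw [List.length_drop]
        omega
      · exact hSE e (List.mem_of_mem_drop he)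
    · left
      simp only [Set.mem_iUnion, Finset.mem_range]
      exact ⟨S.length, by omega, S, mem_lists.2 ⟨rfl, hSE⟩, hS3⟩
  have hcard : ∑ h' ∈ Finset.range (h + 1), (lists E h').card ≤ (h + 1) * (E.card + 1) ^ h := by
    calc ∑ h' ∈ Finset.range (h + 1), (lists E h').card
        ≤ ∑ _h' ∈ Finset.range (h + 1), (E.card + 1) ^ h := by
          refine Finset.sum_le_sum fun h' hh' => ?_
          rw [Finset.mem_range] at hh'
          rw [card_lists]
          calc E.card ^ h' ≤ (E.card + 1) ^ h' := Nat.pow_le_pow_left (by omega) _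
            _ ≤ (E.card + 1) ^ h := Nat.pow_le_pow_right (by omega) (by omega)
      _ = (h + 1) * (E.card + 1) ^ h := by
          rw [Finset.sum_const, Finset.card_range, smul_eq_mul]
  calc coin Φ (Tr Φ κ Pr c q j s T) ≤ coin Φ (⋃ α ∈ A,
      ((⋃ h' ∈ Finset.range (h + 1), ⋃ S ∈ lists E h', Wn Φ α κ Pr c q j S s T) ∪
        ⋃ S ∈ lists E (h + 1), {ω | TK Φ α κ Pr (tt j) (II Φ α κ q j) S ω})) :=
        measure_mono hsub
    _ ≤ ∑ α ∈ A, coin Φ
      ((⋃ h' ∈ Finset.range (h + 1), ⋃ S ∈ lists E h', Wn Φ α κ Pr c q j S s T) ∪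
        ⋃ S ∈ lists E (h + 1), {ω | TK Φ α κ Pr (tt j) (II Φ α κ q j) S ω}) :=
        measure_biUnion_finset_le _ _
    _ ≤ ∑ _α ∈ A, ((((h + 1) * (E.card + 1) ^ h : ℕ) : ℝ≥0∞) * W +
        (∑ e ∈ E, eps Φ κ (tt j) e) ^ (h + 1)) := by
        refine Finset.sum_le_sum fun α hα => ?_
        refine (measure_union_le _ _).trans (add_le_add ?_ ?_)
        · calc coin Φ (⋃ h' ∈ Finset.range (h + 1), ⋃ S ∈ lists E h', Wn Φ α κ Pr c q j S s T)
              ≤ ∑ h' ∈ Finset.range (h + 1),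
                coin Φ (⋃ S ∈ lists E h', Wn Φ α κ Pr c q j S s T) :=
                measure_biUnion_finset_le _ _
            _ ≤ ∑ h' ∈ Finset.range (h + 1), ∑ S ∈ lists E h',
                coin Φ (Wn Φ α κ Pr c q j S s T) :=
                Finset.sum_le_sum fun h' _ => measure_biUnion_finset_le _ _
            _ ≤ ∑ h' ∈ Finset.range (h + 1), ∑ _S ∈ lists E h', W :=
                Finset.sum_le_sum fun h' _ => Finset.sum_le_sum fun S _ => hW α S (hA1 α hα)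
            _ = ((∑ h' ∈ Finset.range (h + 1), (lists E h').card : ℕ) : ℝ≥0∞) * W := by
                simp only [Finset.sum_const, nsmul_eq_mul]
                rw [← Finset.sum_mul]
                push_cast
                rfl
            _ ≤ _ := by
                gcongr
        · refine (measure_biUnion_finset_le _ _).trans ?_
          exact tk_sum (mkDs (hA1 α hα) hκ h0 q) E (h + 1)
    _ = _ := by
        rw [Finset.sum_const, nsmul_eq_mul]

namespace UNION_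

/-- The sum of the probabilities of keys. -/
theorem sum_eps {Φ : Par2} {κ c q j : ℕ} (hj : 1 ≤ j)
    (hB : ∀ n, 4 * (tt j n + 1) ^ 2 * TT c q j n ≤ 2 ^ (lev κ (str (tt j n)) / 2)) (T : ℕ) :
    ∑ e ∈ EE c q j T, eps Φ κ (tt j) e ≤ ENNReal.ofReal (KK Φ / j) := by
  have hj0 : (0 : ℝ) < j := by exact_mod_cast hj
  have h1 : ∀ n, ∑ s ∈ Finset.range (TT c q j n), eps Φ κ (tt j) (n, s) ≤
      ENNReal.ofReal (KK Φ * (1 / (4 * ((tt j n : ℝ) + 1) ^ 2))) := by
    intro n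
    have h0 : ∑ s ∈ Finset.range (TT c q j n), eps Φ κ (tt j) (n, s) =
        (TT c q j n : ℝ≥0∞) * (KK Φ * (2⁻¹ : ℝ≥0∞) ^ (lev κ (str (tt j n)) / 2)) := by
      show ∑ _s ∈ Finset.range (TT c q j n),
        (KK Φ * (2⁻¹ : ℝ≥0∞) ^ (lev κ (str (tt j n)) / 2) : ℝ≥0∞) = _
      rw [Finset.sum_const, Finset.card_range, nsmul_eq_mul]
    rw [h0]
    obtain ⟨L, hL⟩ : ∃ L, L = lev κ (str (tt j n)) / 2 := ⟨_, rfl⟩
    have hBn := hB n
    rw [← hL] at hBn ⊢
    have h3 : (TT c q j n : ℝ≥0∞) * (KK Φ * (2⁻¹ : ℝ≥0∞) ^ L) =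
        ENNReal.ofReal ((TT c q j n : ℝ) * (KK Φ * (1 / 2) ^ L)) := by
      rw [ENNReal.ofReal_mul (by positivity), ENNReal.ofReal_mul (by positivity),
        ENNReal.ofReal_pow (by positivity), one_div, ENNReal.ofReal_inv_of_pos (by norm_num)]
      simp
    rw [h3]
    apply ENNReal.ofReal_le_ofReal
    have h4 : (4 : ℝ) * ((tt j n : ℝ) + 1) ^ 2 * (TT c q j n : ℝ) ≤ 2 ^ L := by
      exact_mod_cast hBn
    have h6 : (0 : ℝ) < 2 ^ L := by positivity
    have h7 : (0 : ℝ) < 4 * ((tt j n : ℝ) + 1) ^ 2 := by positivity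
    have h8 : (TT c q j n : ℝ) * (1 / 2) ^ L ≤ 1 / (4 * ((tt j n : ℝ) + 1) ^ 2) := by
      rw [le_div_iff₀ h7, one_div_pow]
      have h9 : (TT c q j n : ℝ) * (1 / 2 ^ L) * (4 * ((tt j n : ℝ) + 1) ^ 2) =
          (4 * ((tt j n : ℝ) + 1) ^ 2 * (TT c q j n : ℝ)) / 2 ^ L := by ring
      rw [h9, div_le_one h6]
      exact h4
    calc (TT c q j n : ℝ) * (KK Φ * (1 / 2) ^ L) = KK Φ * ((TT c q j n : ℝ) * (1 / 2) ^ L) := by
          ring
      _ ≤ KK Φ * (1 / (4 * ((tt j n : ℝ) + 1) ^ 2)) :=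
          mul_le_mul_of_nonneg_left h8 (by positivity)
  have h2 : ∀ T : ℕ, ∑ n ∈ Finset.range (2 * T + 1), 1 / (4 * ((tt j n : ℝ) + 1) ^ 2) ≤
      1 / (j : ℝ) - 1 / (2 * ((j : ℝ) + T)) := by
    intro T
    induction T with
    | zero =>
      simp only [Nat.mul_zero, Nat.zero_add, Finset.range_one, Finset.sum_singleton, tt_zero,
        Nat.cast_zero, add_zero]
      have e1 : 1 / (j : ℝ) - 1 / (2 * (j : ℝ)) = 1 / (2 * (j : ℝ)) := by
        field_simp
        ring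
      rw [e1]
      apply one_div_le_one_div_of_le (by positivity)
      nlinarith
    | succ T ih =>
      have e1 : 2 * (T + 1) + 1 = 2 * T + 1 + 1 + 1 := by ring
      rw [e1, Finset.sum_range_succ, Finset.sum_range_succ]
      have e2 : tt j (2 * T + 1) = j + T := tt_odd j T
      have e3 : tt j (2 * T + 1 + 1) = j + T := tt_even j T
      rw [e2, e3]
      push_cast
      have hx : (0 : ℝ) < (j : ℝ) + T := by positivity
      have e4 : 1 / (4 * ((j : ℝ) + T + 1) ^ 2) + 1 / (4 * ((j : ℝ) + T + 1) ^ 2) ≤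
          1 / (2 * ((j : ℝ) + T)) - 1 / (2 * ((j : ℝ) + (T + 1))) := by
        have e5 : 1 / (2 * ((j : ℝ) + T)) - 1 / (2 * ((j : ℝ) + (T + 1))) =
            1 / (2 * ((j : ℝ) + T) * ((j : ℝ) + T + 1)) := by
          field_simp
          ring
        have e6 : 1 / (4 * ((j : ℝ) + T + 1) ^ 2) + 1 / (4 * ((j : ℝ) + T + 1) ^ 2) =
            1 / (2 * ((j : ℝ) + T + 1) ^ 2) := by
          field_simp
          ring
        rw [e5, e6]
        apply one_div_le_one_div_of_le (by positivity)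
        nlinarith
      linarith
  rw [sum_EE]
  calc ∑ n ∈ Finset.range (2 * T + 1), ∑ s ∈ Finset.range (TT c q j n), eps Φ κ (tt j) (n, s)
      ≤ ∑ n ∈ Finset.range (2 * T + 1),
        ENNReal.ofReal (KK Φ * (1 / (4 * ((tt j n : ℝ) + 1) ^ 2))) :=
        Finset.sum_le_sum fun n _ => h1 n
    _ = ENNReal.ofReal (∑ n ∈ Finset.range (2 * T + 1),
        KK Φ * (1 / (4 * ((tt j n : ℝ) + 1) ^ 2))) := by
        rw [ENNReal.ofReal_sum_of_nonneg fun n _ => by positivity]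
    _ ≤ ENNReal.ofReal (KK Φ / j) := by
        apply ENNReal.ofReal_le_ofReal
        rw [← Finset.mul_sum]
        have h5 : 0 ≤ 1 / (2 * ((j : ℝ) + T)) := by positivity
        calc (KK Φ : ℝ) * ∑ n ∈ Finset.range (2 * T + 1), 1 / (4 * ((tt j n : ℝ) + 1) ^ 2)
            ≤ KK Φ * (1 / (j : ℝ)) :=
              mul_le_mul_of_nonneg_left (by linarith [h2 T]) (by positivity)
          _ = KK Φ / j := by ring

/-- The length of the inputs. -/
theorem Ln_le (q j n : ℕ) : Ln q j n ≤ (5 * q + 4) * (tt j n + 1) := by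
  unfold Ln rr
  have h1 := ex1_len n
  have h2 : (n - 1) / 2 = tt j n - j := by unfold tt; omega
  have h3 := tt_ge j n
  obtain ⟨i, hi⟩ : ∃ i, tt j n = j + i := ⟨tt j n - j, by omega⟩
  rw [h2, hi, Nat.add_sub_cancel_left]
  split_ifs
  · nlinarith [Nat.zero_le (q * i), Nat.zero_le (q * j), Nat.zero_le i, Nat.zero_le j]
  · nlinarith [Nat.zero_le (q * i), Nat.zero_le (q * j), Nat.zero_le i, Nat.zero_le j]

/-- The number of possible entries. -/
theorem card_le (c q j T : ℕ) :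
    (EE c q j T).card + 1 ≤ (j + T + 2) ^ ((5 * q + 7) * c + 3) := by
  rw [card_EE]
  obtain ⟨t, ht⟩ : ∃ t, t = j + T := ⟨_, rfl⟩
  rw [← ht]
  have h1 : ∀ n ∈ Finset.range (2 * T + 1), TT c q j n ≤ (t + 2) ^ ((5 * q + 7) * c) := by
    intro n hn
    rw [Finset.mem_range] at hn
    unfold TT
    rw [pow_mul]
    refine Nat.pow_le_pow_left ?_ c
    have h2 := Ln_le q j n
    have h3 : tt j n ≤ t := by unfold tt; omega
    have h4 : (5 * q + 4) * (tt j n + 1) ≤ (5 * q + 4) * (t + 1) :=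
      Nat.mul_le_mul_left _ (by omega)
    have h5 : 5 * q + 6 < 2 ^ (5 * q + 6) := Nat.lt_two_pow_self
    have h6 : 2 ^ (5 * q + 6) ≤ (t + 2) ^ (5 * q + 6) := Nat.pow_le_pow_left (by omega) _
    calc Ln q j n + 2 ≤ (5 * q + 6) * (t + 2) := by nlinarith
      _ ≤ (t + 2) ^ (5 * q + 6) * (t + 2) := Nat.mul_le_mul_right _ (by omega)
      _ = (t + 2) ^ (5 * q + 7) := by rw [← pow_succ]
  have h7 : ∑ n ∈ Finset.range (2 * T + 1), TT c q j n ≤
      (2 * T + 1) * (t + 2) ^ ((5 * q + 7) * c) := by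
    calc ∑ n ∈ Finset.range (2 * T + 1), TT c q j n
        ≤ ∑ _n ∈ Finset.range (2 * T + 1), (t + 2) ^ ((5 * q + 7) * c) := Finset.sum_le_sum h1
      _ = _ := by rw [Finset.sum_const, Finset.card_range, smul_eq_mul]
  have h8 : 1 ≤ (t + 2) ^ ((5 * q + 7) * c) := Nat.one_le_pow _ _ (by omega)
  calc ∑ n ∈ Finset.range (2 * T + 1), TT c q j n + 1
      ≤ (2 * T + 1) * (t + 2) ^ ((5 * q + 7) * c) + (t + 2) ^ ((5 * q + 7) * c) := by omega
    _ = (2 * T + 2) * (t + 2) ^ ((5 * q + 7) * c) := by ring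
    _ ≤ (t + 2) ^ 3 * (t + 2) ^ ((5 * q + 7) * c) := by
        refine Nat.mul_le_mul_right _ ?_
        have : (t + 2) ^ 3 = (t + 2) * (t + 2) * (t + 2) := by ring
        nlinarith [Nat.zero_le (t * t), Nat.zero_le t]
    _ = (t + 2) ^ ((5 * q + 7) * c + 3) := by
        rw [← pow_add]
        congr 1
        ring

end UNION_

end Pool.Agent.RelX
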